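import Pool.Agent.MP_7a2f31_al.Maximal

open Matrix

set_option linter.unusedSectionVars false
set_option linter.unusedSimpArgs false

namespace Pool.Agent.MP_7a2f31_al

variable {Φ : Type*} [Field Φ] {J : Type*} [Fintype J] [DecidableEq J]
  {U : Type*} [AddCommGroup U] [Module Φ U] {W : Type*} [AddCommGroup W] [Module Φ W]
  {τ τ' : (J → Φ) →ₗ[Φ] U →ₗ[Φ] U →ₗ[Φ] Φ} {ε : Φ} {bW : W →ₗ[Φ] W →ₗ[Φ] Φ}

theorem bB_ff (alt : ∀ c v, τ c v v = 0) (v w : U) (a c : Option J → Φ) :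
    bB (ff τ v a) (ff τ w c) = c none * τ (rs Φ J a) v w - a none * τ (rs Φ J c) v w := by
  simp only [bB, ff, map_smul, smul_eq_mul]
  rw [tau_skew alt (rs Φ J c) w v]
  ring

theorem A_of (aW : ∀ w, bW w w = 0 → w = 0)
    (g : MM Φ J U W ≃ₗ[Φ] MM Φ J U W) (hg : ∀ m m', bM bW (g m) (g m') = bM bW m m')
    (A1 : ∀ m, m.2.1 = 0 → m.2.2.1 = 0 → (g m).2.1 = 0 ∧ (g m).2.2.1 = 0)
    (A2 : ∀ m, m.2.1 = 0 → m.2.2.1 = 0 → (g.symm m).2.1 = 0 ∧ (g.symm m).2.2.1 = 0)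
    (a : Option J → Φ) : (g (a, 0, 0, 0)).2 = 0 := by
  obtain ⟨h1, h2⟩ := A1 (a, 0, 0, 0) rfl rfl
  refine Prod.ext h1 (Prod.ext h2 ?_)
  apply aW
  have h3 := hg (a, 0, 0, 0) (g.symm (0, 0, 0, (g (a, 0, 0, 0)).2.2.2))
  rw [LinearEquiv.apply_symm_apply, bM_W, bM_A_left, (A2 _ rfl rfl).2, zero_dotProduct] at h3
  exact h3

/-- **Equivalence of the spaces forces equivalence of the tensors.** -/
theorem tensor_of_conj [Nontrivial J] [FiniteDimensional Φ U] (hε : ε * ε = 1)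
    (aW : ∀ w, bW w w = 0 → w = 0)
    (alt : ∀ c v, τ c v v = 0) (alt' : ∀ c v, τ' c v v = 0)
    (c0 : J → Φ) (nd : ∀ x, (∀ v, τ c0 v x = 0) → x = 0)
    (c0' : J → Φ) (nd' : ∀ x, (∀ v, τ' c0' v x = 0) → x = 0)
    (inj' : ∀ c, (∀ v w, τ' c v w = 0) → c = 0)
    (g : MM Φ J U W ≃ₗ[Φ] MM Φ J U W) (hg : ∀ m m', bM bW (g m) (g m') = bM bW m m')
    (hc : ∀ x ∈ VV W τ ε, ∃ y ∈ VV W τ' ε, ∀ m, g (x m) = y (g m))
    (hc' : ∀ y ∈ VV W τ' ε, ∃ x ∈ VV W τ ε, ∀ m, g (x m) = y (g m)) :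
    ∃ (P : U ≃ₗ[Φ] U) (H : (J → Φ) →ₗ[Φ] (J → Φ)), ∀ c v w, τ' (H c) (P v) (P w) = τ c v w := by
  have hε0 := eps_ne hε
  have hgs : ∀ m m', bM bW (g.symm m) (g.symm m') = bM bW m m' := by
    intro m m'
    rw [← hg, LinearEquiv.apply_symm_apply, LinearEquiv.apply_symm_apply]
  have A1 : ∀ m, m.2.1 = 0 → m.2.2.1 = 0 → (g m).2.1 = 0 ∧ (g m).2.2.1 = 0 := by
    intro m hm hm'
    apply ker_VV hε c0' nd'
    intro y hy
    obtain ⟨x, hx, hxy⟩ := hc' y hy
    rw [← hxy, ff_A m hm hm' hx, map_zero]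
  have A2 : ∀ m, (g m).2.1 = 0 → (g m).2.2.1 = 0 → m.2.1 = 0 ∧ m.2.2.1 = 0 := by
    intro m hm hm'
    apply ker_VV hε c0 nd
    intro x hx
    obtain ⟨y, hy, hxy⟩ := hc x hx
    have := hxy m
    rw [ff_A (g m) hm hm' hy] at this
    exact (map_eq_zero_iff g g.injective).1 this
  have A2' : ∀ m, m.2.1 = 0 → m.2.2.1 = 0 → (g.symm m).2.1 = 0 ∧ (g.symm m).2.2.1 = 0 := by
    intro m hm hm'
    apply A2 <;> rw [LinearEquiv.apply_symm_apply] <;> assumption
  have AA : ∀ a, (g (a, 0, 0, 0)).2 = 0 := A_of aW g hg A1 A2'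
  have AA' : ∀ a, (g.symm (a, 0, 0, 0)).2 = 0 := by
    apply A_of aW g.symm hgs A2'
    exact A1
  have A3 : ∀ m, m.2.2.1 = 0 → (g m).2.2.1 = 0 := by
    intro m hm
    apply dotProduct_eq_zero
    intro a
    have h2 : g.symm (a, 0, 0, 0) = ((g.symm (a, 0, 0, 0)).1, 0, 0, 0) := Prod.ext rfl (AA' a)
    rw [← bM_A (bW := bW)]
    conv_lhs => rw [← LinearEquiv.apply_symm_apply g (a, 0, 0, 0)]
    rw [hg, h2, bM_A, hm, zero_dotProduct]
  have A4 : ∀ m, (g m).2.2.1 = 0 → m.2.2.1 = 0 := by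
    intro m hm
    apply dotProduct_eq_zero
    intro a
    have h1 : g (a, 0, 0, 0) = ((g (a, 0, 0, 0)).1, 0, 0, 0) := Prod.ext rfl (AA a)
    rw [← bM_A (bW := bW), ← hg, h1, bM_A, hm, zero_dotProduct]
  have AB : ∀ β, (g (0, β, 0, 0)).2.2.2 = 0 := by
    intro β
    apply aW
    have h3 := hg (0, β, 0, 0) (g.symm (0, 0, 0, (g (0, β, 0, 0)).2.2.2))
    rw [LinearEquiv.apply_symm_apply, bM_W, bM_B_left, (A2' _ rfl rfl).1, bB_zero_right] at h3
    exact h3
  -- the induced map on `A*`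
  let q0 : (Option J → Φ) →ₗ[Φ] (Option J → Φ) :=
      (LinearMap.fst Φ _ _) ∘ₗ (LinearMap.snd Φ _ _) ∘ₗ (LinearMap.snd Φ _ _) ∘ₗ
        g.toLinearMap ∘ₗ (LinearMap.inr Φ _ _) ∘ₗ (LinearMap.inr Φ _ _) ∘ₗ (LinearMap.inl Φ _ _)
  have hq0 : ∀ a, q0 a = (g (0, 0, a, 0)).2.2.1 := fun a => rfl
  have q0inj : Function.Injective q0 := by
    rw [injective_iff_map_eq_zero]
    intro a ha
    exact A4 (0, 0, a, 0) ha
  let q := LinearEquiv.ofInjectiveEndo q0 q0inj
  have hq : ∀ a, q a = (g (0, 0, a, 0)).2.2.1 := fun a => rfl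
  -- the induced map on `U`
  let a0 := q.symm (e0 Φ J)
  have ha0 : q a0 = e0 Φ J := q.apply_symm_apply _
  let P0 : U →ₗ[Φ] U :=
    { toFun := fun v => (g (0, ff τ v a0, 0, 0)).2.1.1
      map_add' := by
        intro v w
        rw [ff_add_left]
        have : ((0, ff τ v a0 + ff τ w a0, 0, 0) : MM Φ J U W)
            = (0, ff τ v a0, 0, 0) + (0, ff τ w a0, 0, 0) := by
          simp
        rw [this, map_add]
        rfl
      map_smul' := by
        intro c v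
        rw [ff_smul_left]
        have : ((0, c • ff τ v a0, 0, 0) : MM Φ J U W) = c • (0, ff τ v a0, 0, 0) := by
          simp
        rw [this, map_smul]
        rfl }
  have hP0 : ∀ v, P0 v = (g (0, ff τ v a0, 0, 0)).2.1.1 := fun v => rfl
  have key : ∀ v a, (g (0, ff τ v a, 0, 0)).2.1 = ff τ' (P0 v) (q a) := by
    intro v
    obtain ⟨y, hy, hxy⟩ := hc _ (mem_VV_v (τ := τ) (ε := ε) v)
    obtain ⟨v', γ', hγ', hy'⟩ := (mem_VV τ').1 hy
    have h1 : ∀ a, (g (0, ff τ v a, 0, 0)).2.1 = ff τ' v' (q a) := by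
      intro a
      have := hxy (0, 0, a, 0)
      rw [xmap_v, hy'] at this
      simp only [fd_zero_right, smul_zero] at this
      rw [this, hq]
    have h2 : v' = P0 v := by
      rw [hP0, h1, ha0, ff_e0]
    rw [← h2]
    exact h1
  have P0inj : Function.Injective P0 := by
    rw [injective_iff_map_eq_zero]
    intro v hv
    have h1 := key v (e0 Φ J)
    rw [hv, ff_zero_left, ff_e0] at h1
    have h3 := (A2 (0, (v, 0), 0, 0) h1 (A3 _ rfl)).1
    exact congrArg (fun x => x.1) h3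
  let P := LinearEquiv.ofInjectiveEndo P0 P0inj
  have hP : ∀ v, P v = P0 v := fun v => rfl
  have hbB : ∀ β δ : U × Module.Dual Φ U,
      bB (g (0, β, 0, 0)).2.1 (g (0, δ, 0, 0)).2.1 = bB β δ := by
    intro β δ
    have h1 := hg (0, β, 0, 0) (0, δ, 0, 0)
    rw [bM_B_left] at h1
    simp only [bM, A3 ((0, β, 0, 0) : MM Φ J U W) rfl, A3 ((0, δ, 0, 0) : MM Φ J U W) rfl,
      dotProduct_zero, zero_dotProduct, zero_add, AB, map_zero, add_zero] at h1
    exact h1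
  have E : ∀ a c v w, (q c) none * τ' (rs Φ J (q a)) (P v) (P w)
      - (q a) none * τ' (rs Φ J (q c)) (P v) (P w)
      = c none * τ (rs Φ J a) v w - a none * τ (rs Φ J c) v w := by
    intro a c v w
    rw [← bB_ff alt, ← bB_ff alt', hP, hP, ← key, ← key, hbB]
  -- `C*` is preserved
  have C1 : ∀ c : J → Φ, (q (ext0 Φ J c)) none = 0 := by
    intro c
    by_contra hs
    set s := (q (ext0 Φ J c)) none with hsdef
    have h1 : ∀ d : J → Φ, s • d = (q (ext0 Φ J d)) none • c := by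
      intro d
      set t := (q (ext0 Φ J d)) none with htdef
      have h2 : rs Φ J (q (ext0 Φ J (s • d - t • c))) = 0 := by
        apply inj'
        intro v' w'
        obtain ⟨v, rfl⟩ := P.surjective v'
        obtain ⟨w, rfl⟩ := P.surjective w'
        have h3 := E (ext0 Φ J d) (ext0 Φ J c) v w
        rw [ext0_none, ext0_none, ← hsdef, ← htdef] at h3
        simp only [map_sub, map_smul, LinearMap.sub_apply, LinearMap.smul_apply, smul_eq_mul]
        linear_combination h3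
      have h3 : q (ext0 Φ J (s • d - t • c)) = 0 := by
        rw [opt_decomp (q (ext0 Φ J (s • d - t • c))), h2, map_zero, add_zero]
        simp only [map_sub, map_smul, Pi.sub_apply, Pi.smul_apply, ← hsdef, ← htdef, smul_eq_mul]
        rw [mul_comm, sub_self, zero_smul]
      have h4 : ext0 Φ J (s • d - t • c) = 0 := (map_eq_zero_iff q q.injective).1 h3
      have h5 : s • d - t • c = 0 := by
        rw [← rs_ext0 (s • d - t • c), h4, map_zero]
      exact sub_eq_zero.1 h5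
    obtain ⟨i, j, hij⟩ := exists_pair_ne J
    have h6 := congrFun (h1 (Pi.single i 1)) j
    have h7 := congrFun (h1 (Pi.single i 1)) i
    have h8 := congrFun (h1 (Pi.single j 1)) j
    simp only [Pi.smul_apply, Pi.single_eq_same, Pi.single_eq_of_ne hij.symm, smul_eq_mul,
      mul_one, mul_zero] at h6 h7 h8
    have h9 : (q (ext0 Φ J (Pi.single i 1))) none ≠ 0 := by
      intro h0; rw [h0, zero_mul] at h7; exact hs h7
    have h10 : c j ≠ 0 := by
      intro h0; rw [h0, mul_zero] at h8; exact hs h8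
    exact mul_ne_zero h9 h10 h6.symm
  refine ⟨P, (q (e0 Φ J)) none • ((rs Φ J) ∘ₗ q.toLinearMap ∘ₗ (ext0 Φ J)), ?_⟩
  intro c v w
  have h1 := E (ext0 Φ J c) (e0 Φ J) v w
  rw [C1, e0_none, rs_ext0, ext0_none] at h1
  simp only [LinearMap.smul_apply, LinearMap.comp_apply, map_smul, smul_eq_mul,
    LinearEquiv.coe_coe]
  linear_combination h1

end Pool.Agent.MP_7a2f31_al
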