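import Pool.Agent.MP_7a2f31_al.MainPart
import Pool.Agent.MP_7a2f31_al.Tensor

open Matrix Module

set_option linter.unusedSectionVars false
set_option linter.unusedSimpArgs false

namespace Pool.Agent.MP_7a2f31_al

variable {Φ : Type*} [Field Φ] {W : Type*} [AddCommGroup W] [Module Φ W]
  {bW : W →ₗ[Φ] W →ₗ[Φ] Φ}

section lift
variable {J : Type*} [Fintype J] [DecidableEq J] {U : Type*} [AddCommGroup U] [Module Φ U]
  {τ τ' : (J → Φ) →ₗ[Φ] U →ₗ[Φ] U →ₗ[Φ] Φ} {ε : Φ}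

/-- the isometry of `MM` induced by an automorphism of `U` -/
def liftM (J W : Type*) [AddCommGroup W] [Module Φ W] (G : U ≃ₗ[Φ] U) :
    MM Φ J U W ≃ₗ[Φ] MM Φ J U W :=
  (LinearEquiv.refl Φ _).prodCongr ((G.prodCongr G.symm.dualMap).prodCongr (LinearEquiv.refl Φ _))

theorem liftM_apply (G : U ≃ₗ[Φ] U) (m : MM Φ J U W) :
    liftM J W G m = (m.1, (G m.2.1.1, m.2.1.2 ∘ₗ G.symm.toLinearMap), m.2.2.1, m.2.2.2) := rfl

theorem liftM_isometry (G : U ≃ₗ[Φ] U) (m m' : MM Φ J U W) :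
    bM bW (liftM J W G m) (liftM J W G m') = bM bW m m' := by
  simp [liftM_apply, bM, bB]

theorem liftM_conj (G : U ≃ₗ[Φ] U) (hG : ∀ c v w, τ' c (G v) (G w) = τ c v w)
    (v : U) (γ : Matrix (Option J) (Option J) Φ) (m : MM Φ J U W) :
    liftM J W G (xmap W τ ε (v, γ) m) = xmap W τ' ε (G v, γ) (liftM J W G m) := by
  rw [xmap_apply, xmap_apply, liftM_apply, liftM_apply]
  have h1 : fd τ v m.2.1 = fd τ' (G v) (G m.2.1.1, m.2.1.2 ∘ₗ G.symm.toLinearMap) := by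
    funext o
    cases o with
    | none => simp [fd]
    | some j => simp [fd, hG]
  refine Prod.ext ?_ (Prod.ext (Prod.ext ?_ ?_) rfl)
  · simp only [h1]
  · simp [ff]
  · refine LinearMap.ext fun w => ?_
    obtain ⟨w, rfl⟩ := G.surjective w
    simp [ff, hG]

theorem liftM_fwd (G : U ≃ₗ[Φ] U) (hG : ∀ c v w, τ' c (G v) (G w) = τ c v w) :
    ∀ x ∈ VV W τ ε, ∃ y ∈ VV W τ' ε, ∀ m, liftM J W G (x m) = y (liftM J W G m) := by
  rintro x ⟨⟨v, γ⟩, hγ, rfl⟩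
  exact ⟨xmap W τ' ε (G v, γ), ⟨(G v, γ), hγ, rfl⟩, fun m => liftM_conj G hG v γ m⟩

theorem liftM_bwd (G : U ≃ₗ[Φ] U) (hG : ∀ c v w, τ' c (G v) (G w) = τ c v w) :
    ∀ y ∈ VV W τ' ε, ∃ x ∈ VV W τ ε, ∀ m, liftM J W G (x m) = y (liftM J W G m) := by
  rintro y ⟨⟨v, γ⟩, hγ, rfl⟩
  refine ⟨xmap W τ ε (G.symm v, γ), ⟨(G.symm v, γ), hγ, rfl⟩, fun m => ?_⟩
  rw [liftM_conj G hG, LinearEquiv.apply_symm_apply]

end lift

section pairs
variable {T R : Type*} [AddCommGroup T] [Module Φ T] [AddCommGroup R] [Module Φ R] {l s : ℕ}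

/-- the tensor of a pair -/
def tauXY (R : Type*) [AddCommGroup R] [Module Φ R] (l s : ℕ) (p : (T →ₗ[Φ] T) × (T →ₗ[Φ] T)) :
    (Fin (s + 5) → Φ) →ₗ[Φ] UU Φ (EE T R) l (s + 5) →ₗ[Φ] UU Φ (EE T R) l (s + 5) →ₗ[Φ] Φ :=
  tau l (sysA s (opA R p.1 p.2))

/-- the diagonal action -/
def diagE (R : Type*) [AddCommGroup R] [Module Φ R] (h : T ≃ₗ[Φ] T) : EE T R ≃ₗ[Φ] EE T R :=
  h.prodCongr (h.prodCongr (h.prodCongr (LinearEquiv.refl Φ R)))

/-- the automorphism of `U` induced by an automorphism of `T` -/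
def liftU (R : Type*) [AddCommGroup R] [Module Φ R] (l s : ℕ) (h : T ≃ₗ[Φ] T) :
    UU Φ (EE T R) l (s + 5) ≃ₗ[Φ] UU Φ (EE T R) l (s + 5) :=
  ((diagE R h).prodCongr (diagE R h).symm.dualMap).prodCongr (LinearEquiv.refl Φ _)

theorem liftU_apply (h : T ≃ₗ[Φ] T) (v : UU Φ (EE T R) l (s + 5)) :
    liftU R l s h v = ((diagE R h v.1.1, v.1.2 ∘ₗ (diagE R h).symm.toLinearMap), v.2) := rfl

theorem liftU_tau {p p' : (T →ₗ[Φ] T) × (T →ₗ[Φ] T)} (h : T ≃ₗ[Φ] T)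
    (h1 : ∀ t, h (p.1 t) = p'.1 (h t)) (h2 : ∀ t, h (p.2 t) = p'.2 (h t))
    (c : Fin (s + 5) → Φ) (v w : UU Φ (EE T R) l (s + 5)) :
    tauXY R l s p' c (liftU R l s h v) (liftU R l s h w) = tauXY R l s p c v w := by
  have key : ∀ e : EE T R, sysA s (opA R p'.1 p'.2) c (diagE R h e)
      = diagE R h (sysA s (opA R p.1 p.2) c e) := by
    intro e
    have h3 : ∀ i, opA R p'.1 p'.2 i (diagE R h e) = diagE R h (opA R p.1 p.2 i e) := by
      intro i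
      fin_cases i <;> simp [opA, opB, opC, diagE, h1, h2]
    simp only [sysA, LinearMap.coe_mk, AddHom.coe_mk, LinearMap.add_apply, LinearMap.smul_apply,
      LinearMap.id_apply, LinearMap.sum_apply, h3, map_add, map_smul, map_sum]
  rw [tauXY, tauXY, tau_apply, tau_apply, liftU_apply, liftU_apply]
  simp only [key, LinearMap.comp_apply, LinearEquiv.coe_coe, LinearEquiv.symm_apply_apply]

theorem tauXY_alt (p : (T →ₗ[Φ] T) × (T →ₗ[Φ] T)) (c : Fin (s + 5) → Φ)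
    (v : UU Φ (EE T R) l (s + 5)) : tauXY R l s p c v v = 0 := tau_alt _ c v

/-- the coefficient vector giving a nondegenerate form -/
def cc (Φ : Type*) [Field Φ] (s : ℕ) : Fin (s + 5) → Φ := fun j =>
  1 - (if j = io s 2 then 2 else 0) - (if j = io s 3 then 2 else 0)

theorem cc_ne (j : Fin (s + 5)) : cc Φ s j ≠ 0 := by
  have h23 : io s 2 ≠ io s 3 := fun h => by
    have := io_inj s h
    simp at this
  have hm : (1:Φ) - 2 ≠ 0 := by
    have : (1:Φ) - 2 = -1 := by ring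
    rw [this]; simp
  unfold cc
  by_cases h1 : j = io s 2
  · have h3 : j ≠ io s 3 := by rw [h1]; exact h23
    rw [if_pos h1, if_neg h3, sub_zero]; exact hm
  · by_cases h3 : j = io s 3
    · rw [if_neg h1, if_pos h3, sub_zero]; exact hm
    · rw [if_neg h1, if_neg h3]; simp

theorem cc_sum : ∑ j, cc Φ s j = (s:Φ) + 1 := by
  simp only [cc, Finset.sum_sub_distrib, Finset.sum_ite_eq', Finset.mem_univ, if_true,
    Finset.sum_const, Finset.card_univ, Fintype.card_fin, nsmul_eq_mul]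
  push_cast
  ring

theorem cc_bij [FiniteDimensional Φ T] [FiniteDimensional Φ R] (hs : (s:Φ) + 1 ≠ 0)
    (p : (T →ₗ[Φ] T) × (T →ₗ[Φ] T)) :
    Function.Bijective (sysA s (opA R p.1 p.2) (cc Φ s)) := by
  have h0 : cc Φ s (io s 0) = 1 := by
    have h1 : io s 0 ≠ io s 2 := fun h => by simpa using io_inj s h
    have h3 : io s 0 ≠ io s 3 := fun h => by simpa using io_inj s h
    simp [cc, h1, h3]
  have h1 : cc Φ s (io s 1) = 1 := by
    have h1 : io s 1 ≠ io s 2 := fun h => by simpa using io_inj s h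
    have h3 : io s 1 ≠ io s 3 := fun h => by simpa using io_inj s h
    simp [cc, h1, h3]
  have h : ∀ e : EE T R, sysA s (opA R p.1 p.2) (cc Φ s) e
      = (((s:Φ) + 1) • e.1, ((s:Φ) + 1) • e.2.1 + e.1,
        ((s:Φ) + 1) • e.2.2.1 + (e.2.1 + cc Φ s (io s 2) • p.1 e.2.1 + cc Φ s (io s 3) • p.2 e.2.1),
        ((s:Φ) + 1) • e.2.2.2) := by
    intro e
    have e4 : ∀ f : Fin 4 → EE T R, ∑ i, f i = f 0 + f 1 + f 2 + f 3 := fun f => by
      rw [Fin.sum_univ_four]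
    simp only [sysA, LinearMap.coe_mk, AddHom.coe_mk, LinearMap.add_apply, LinearMap.smul_apply,
      LinearMap.id_apply, LinearMap.sum_apply, e4, cc_sum, h0, h1]
    simp only [opA, opB, opC]
    refine Prod.ext ?_ (Prod.ext ?_ (Prod.ext ?_ ?_))
    · simp
    · simp
    · simp
    · simp
  have hinj : Function.Injective (sysA s (opA R p.1 p.2) (cc Φ s)) := by
    rw [injective_iff_map_eq_zero]
    intro e he
    rw [h] at he
    have e1 : ((s:Φ) + 1) • e.1 = 0 := congrArg (fun x => x.1) he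
    have e2 : ((s:Φ) + 1) • e.2.1 + e.1 = 0 := congrArg (fun x => x.2.1) he
    have e3 : ((s:Φ) + 1) • e.2.2.1 + (e.2.1 + cc Φ s (io s 2) • p.1 e.2.1
      + cc Φ s (io s 3) • p.2 e.2.1) = 0 := congrArg (fun x => x.2.2.1) he
    have e4 : ((s:Φ) + 1) • e.2.2.2 = 0 := congrArg (fun x => x.2.2.2) he
    have f1 : e.1 = 0 := (smul_eq_zero.1 e1).resolve_left hs
    rw [f1, add_zero] at e2
    have f2 : e.2.1 = 0 := (smul_eq_zero.1 e2).resolve_left hs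
    rw [f2, map_zero, map_zero, smul_zero, smul_zero, add_zero, add_zero, add_zero] at e3
    have f3 : e.2.2.1 = 0 := (smul_eq_zero.1 e3).resolve_left hs
    have f4 : e.2.2.2 = 0 := (smul_eq_zero.1 e4).resolve_left hs
    exact Prod.ext f1 (Prod.ext f2 (Prod.ext f3 f4))
  exact ⟨hinj, LinearMap.injective_iff_surjective.1 hinj⟩

theorem tauXY_nd [FiniteDimensional Φ T] [FiniteDimensional Φ R] (hs : (s:Φ) + 1 ≠ 0)
    (p : (T →ₗ[Φ] T) × (T →ₗ[Φ] T)) (x : UU Φ (EE T R) l (s + 5))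
    (hx : ∀ v, tauXY R l s p (cc Φ s) v x = 0) : x = 0 :=
  tau_nd cc_ne (cc_bij hs p) x hx

/-- **Classification of the tensors.** -/
theorem tauXY_equiv [FiniteDimensional Φ T] [FiniteDimensional Φ R]
    (hl : finrank Φ (EE T R) < l) {p p' : (T →ₗ[Φ] T) × (T →ₗ[Φ] T)}
    (h : ∃ (P : UU Φ (EE T R) l (s + 5) ≃ₗ[Φ] UU Φ (EE T R) l (s + 5))
      (H : (Fin (s + 5) → Φ) →ₗ[Φ] (Fin (s + 5) → Φ)),
      ∀ c v w, tauXY R l s p' (H c) (P v) (P w) = tauXY R l s p c v w) :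
    ∃ h : T ≃ₗ[Φ] T, (∀ t, h (p.1 t) = p'.1 (h t)) ∧ ∀ t, h (p.2 t) = p'.2 (h t) := by
  obtain ⟨P, H, hPH⟩ := h
  obtain ⟨g, hg⟩ := main_part hl (opA_sq p.1 p.2) (opA_sq p'.1 p'.2) P H hPH
  exact extraction g hg

/-- **Equivalence of the spaces `V(X,Y)` is simultaneous similarity.** -/
theorem VV_equiv_iff [FiniteDimensional Φ T] [FiniteDimensional Φ R] {ε : Φ} (hε : ε * ε = 1)
    (aW : ∀ w, bW w w = 0 → w = 0) (hs : (s:Φ) + 1 ≠ 0)
    (hl : finrank Φ (EE T R) < l) (p p' : (T →ₗ[Φ] T) × (T →ₗ[Φ] T)) :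
    (∃ g : MM Φ (Fin (s + 5)) (UU Φ (EE T R) l (s + 5)) W ≃ₗ[Φ]
        MM Φ (Fin (s + 5)) (UU Φ (EE T R) l (s + 5)) W,
      (∀ m m', bM bW (g m) (g m') = bM bW m m') ∧
      (∀ x ∈ VV W (tauXY R l s p) ε, ∃ y ∈ VV W (tauXY R l s p') ε, ∀ m, g (x m) = y (g m)) ∧
      (∀ y ∈ VV W (tauXY R l s p') ε, ∃ x ∈ VV W (tauXY R l s p) ε, ∀ m, g (x m) = y (g m))) ↔
    ∃ h : T ≃ₗ[Φ] T, (∀ t, h (p.1 t) = p'.1 (h t)) ∧ ∀ t, h (p.2 t) = p'.2 (h t) := by
  constructor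
  · rintro ⟨g, hg, hc, hc'⟩
    apply tauXY_equiv (R := R) (s := s) hl
    exact tensor_of_conj hε aW (tauXY_alt p) (tauXY_alt p') (cc Φ s) (tauXY_nd hs p) (cc Φ s)
      (tauXY_nd hs p') (fun c hc => tau_inj (lt_of_le_of_lt (Nat.zero_le _) hl) c hc) g hg hc hc'
  · rintro ⟨h, h1, h2⟩
    exact ⟨liftM (Fin (s + 5)) W (liftU R l s h), liftM_isometry _, liftM_fwd _ (liftU_tau h h1 h2),
      liftM_bwd _ (liftU_tau h h1 h2)⟩

end pairs

end Pool.Agent.MP_7a2f31_al
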