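import Mathlib

open Matrix

namespace Pool.Agent.MP_7a2f31_al

variable {Φ : Type*} [Field Φ] {n : ℕ}

/-- `V` is a SAAM (space of anticommuting antisymmetric matrices). -/
def IsSAAM (V : Submodule Φ (Matrix (Fin n) (Fin n) Φ)) : Prop :=
  ∀ x ∈ V, x * x = 0 ∧ xᵀ = -x

/-- `V` is a SASM (space of anticommuting symmetric matrices). -/
def IsSASM (V : Submodule Φ (Matrix (Fin n) (Fin n) Φ)) : Prop :=
  ∀ x ∈ V, x * x = 0 ∧ xᵀ = x

/-- `V` is a maximal SAAM: it is not properly contained in another SAAM. -/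
def IsMaximalSAAM (V : Submodule Φ (Matrix (Fin n) (Fin n) Φ)) : Prop :=
  IsSAAM V ∧ ∀ V' : Submodule Φ (Matrix (Fin n) (Fin n) Φ), IsSAAM V' → V ≤ V' → V = V'

/-- `V` is a maximal SASM: it is not properly contained in another SASM. -/
def IsMaximalSASM (V : Submodule Φ (Matrix (Fin n) (Fin n) Φ)) : Prop :=
  IsSASM V ∧ ∀ V' : Submodule Φ (Matrix (Fin n) (Fin n) Φ), IsSASM V' → V ≤ V' → V = V'

/-- Equivalence of two spaces of matrices: `W = q V qᵗ` for some orthogonal matrix `q`. -/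
def OrthEquiv (V W : Submodule Φ (Matrix (Fin n) (Fin n) Φ)) : Prop :=
  ∃ q : Matrix (Fin n) (Fin n) Φ, q * qᵀ = 1 ∧
    (W : Set (Matrix (Fin n) (Fin n) Φ)) = (fun x => q * x * qᵀ) '' V

/-- Simultaneous similarity of two pairs of `k × k` matrices. -/
def SimSimilar {k : ℕ} (p p' : Matrix (Fin k) (Fin k) Φ × Matrix (Fin k) (Fin k) Φ) : Prop :=
  ∃ g : (Matrix (Fin k) (Fin k) Φ)ˣ,
    p'.1 = (g : Matrix (Fin k) (Fin k) Φ) * p.1 * (g⁻¹ : (Matrix (Fin k) (Fin k) Φ)ˣ) ∧
    p'.2 = (g : Matrix (Fin k) (Fin k) Φ) * p.2 * (g⁻¹ : (Matrix (Fin k) (Fin k) Φ)ˣ)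

/-- The classification up to equivalence of the subspaces `V` of `M_n(Φ)` with the property `P`
contains the classification of pairs of `k × k` matrices over `Φ` up to simultaneous similarity:
there are finitely many `n × n` matrices `B_i(X,Y)`, whose entries are affine functions of the
entries of the two `k × k` matrices `X, Y`, such that for all `(X,Y)` the span `V(X,Y)` of the
`B_i(X,Y)` has the property `P`, and such that `V(X,Y)` and `V(X',Y')` are equivalent if and only
if `(X,Y)` and `(X',Y')` are simultaneously similar. -/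
def ContainsPairs (k : ℕ) (P : Submodule Φ (Matrix (Fin n) (Fin n) Φ) → Prop) : Prop :=
  ∃ (d : ℕ) (B : Fin d →
      (Matrix (Fin k) (Fin k) Φ × Matrix (Fin k) (Fin k) Φ) →ᵃ[Φ] Matrix (Fin n) (Fin n) Φ),
    (∀ p, P (Submodule.span Φ (Set.range fun i => B i p))) ∧
    ∀ p p', OrthEquiv (Submodule.span Φ (Set.range fun i => B i p))
      (Submodule.span Φ (Set.range fun i => B i p')) ↔ SimSimilar p p'

end Pool.Agent.MP_7a2f31_al
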