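import Pool.Agent.MP_7a2f31_al.Transfer

open Matrix Module

set_option linter.unusedSectionVars false
set_option linter.unusedSimpArgs false

namespace Pool.Agent.MP_7a2f31_al

variable {Φ : Type*} [Field Φ]

section span
variable {J : Type*} [Fintype J] [DecidableEq J] {U : Type*} [AddCommGroup U] [Module Φ U]
  {W : Type*} [AddCommGroup W] [Module Φ W] {ε : Φ} {ι : Type*}

/-- generators of the parameter space -/
def genq (b : ι → U) (ε : Φ) : ι ⊕ (Option J × Option J) → U × Matrix (Option J) (Option J) Φ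
  | Sum.inl i => (b i, 0)
  | Sum.inr st => (0, gam ε st.1 st.2)

theorem span_genq (h2 : (2:Φ) ≠ 0) (hε : ε * ε = 1) (b : Basis ι Φ U) :
    Submodule.span Φ (Set.range (genq (J := J) b ε)) = symSub Φ J U ε := by
  apply le_antisymm
  · rw [Submodule.span_le]
    rintro _ ⟨i | ⟨s, t⟩, rfl⟩
    · change (0 : Matrix (Option J) (Option J) Φ)ᵀ = ε • (0 : Matrix (Option J) (Option J) Φ)
      simp
    · exact gam_transpose hε s t
  · rintro ⟨v, γ⟩ hγ
    have hγ' : γᵀ = ε • γ := hγ
    have h1 : ((v, γ) : U × Matrix (Option J) (Option J) Φ) = (v, 0) + (0, γ) := by simp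
    rw [h1]
    apply Submodule.add_mem
    · have h3 : ((v, 0) : U × Matrix (Option J) (Option J) Φ)
          = LinearMap.inl Φ U (Matrix (Option J) (Option J) Φ) v := rfl
      rw [h3]
      have h4 : v ∈ Submodule.span Φ (Set.range b) := b.mem_span v
      have h5 : LinearMap.inl Φ U (Matrix (Option J) (Option J) Φ) v ∈
          (Submodule.span Φ (Set.range b)).map (LinearMap.inl Φ U _) := ⟨v, h4, rfl⟩
      rw [Submodule.map_span] at h5
      refine Submodule.span_mono ?_ h5
      rintro _ ⟨_, ⟨i, rfl⟩, rfl⟩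
      exact ⟨Sum.inl i, rfl⟩
    · have h3 : ((0, γ) : U × Matrix (Option J) (Option J) Φ)
          = ∑ s, ∑ t, ((2:Φ)⁻¹ * γ s t) • genq (J := J) b ε (Sum.inr (s, t)) := by
        have h4 : ∀ s t, ((2:Φ)⁻¹ * γ s t) • genq (J := J) b ε (Sum.inr (s, t))
            = ((0 : U), ((2:Φ)⁻¹ * γ s t) • gam ε s t) := by
          intro s t
          simp [genq]
        simp only [h4]
        have h6 : ∀ f : Option J → Option J → Matrix (Option J) (Option J) Φ,
            ∑ s, ∑ t, ((0 : U), f s t) = ((0 : U), ∑ s, ∑ t, f s t) := by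
          intro f
          refine Prod.ext ?_ ?_
          · simp only [Prod.fst_sum, Finset.sum_const_zero]
          · simp only [Prod.snd_sum]
        rw [h6]
        refine Prod.ext rfl ?_
        ext i j
        have h7 : ∀ s t, (((2:Φ)⁻¹ * γ s t) • gam ε s t) i j
            = (if s = i then (if t = j then (2:Φ)⁻¹ * γ s t else 0) else 0)
              + (if t = i then (if s = j then (2:Φ)⁻¹ * γ s t * ε else 0) else 0) := by
          intro s t
          simp only [gam, Matrix.smul_apply, Matrix.add_apply, Matrix.single_apply, smul_eq_mul,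
            ite_and, mul_add, mul_ite, mul_one, mul_zero]
        simp only [Matrix.sum_apply, h7, Finset.sum_add_distrib, Finset.sum_ite_irrel,
          Finset.sum_const_zero, Finset.sum_ite_eq', Finset.mem_univ, if_true]
        have h8 : γ j i = ε * γ i j := by
          have := congrFun (congrFun hγ' i) j
          simpa using this
        rw [h8]
        have h9 : (2:Φ)⁻¹ + (2:Φ)⁻¹ = 1 := by rw [← two_mul, mul_inv_cancel₀ h2]
        linear_combination (-(γ i j)) * h9 - (2:Φ)⁻¹ * γ i j * hε
      rw [h3]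
      exact Submodule.sum_mem _ fun s _ => Submodule.sum_mem _ fun t _ =>
        Submodule.smul_mem _ _ (Submodule.subset_span ⟨_, rfl⟩)

theorem VV_map_eq_span {n : ℕ} (θ : MM Φ J U W ≃ₗ[Φ] (Fin n → Φ)) (h2 : (2:Φ) ≠ 0)
    (hε : ε * ε = 1) (b : Basis ι Φ U) (τ : (J → Φ) →ₗ[Φ] U →ₗ[Φ] U →ₗ[Φ] Φ) :
    (VV W τ ε).map (Psi θ).toLinearMap
      = Submodule.span Φ (Set.range fun i => Psi θ (xmap W τ ε (genq b ε i))) := by
  rw [VV, ← span_genq h2 hε b, Submodule.map_span, Submodule.map_span, ← Set.range_comp,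
    ← Set.range_comp]
  rfl

theorem xmap_aff (τ τ' τ'' : (J → Φ) →ₗ[Φ] U →ₗ[Φ] U →ₗ[Φ] Φ) (a b c : Φ) (h : a + b + c = 1)
    (q : U × Matrix (Option J) (Option J) Φ) :
    xmap W (a • τ + b • τ' + c • τ'') ε q
      = a • xmap W τ ε q + b • xmap W τ' ε q + c • xmap W τ'' ε q := by
  refine LinearMap.ext fun m => ?_
  simp only [LinearMap.add_apply, LinearMap.smul_apply]
  simp only [xmap_apply]
  refine Prod.ext ?_ (Prod.ext (Prod.ext ?_ ?_) (by simp))
  · funext o
    have hfd : fd (a • τ + b • τ' + c • τ'') q.1 m.2.1 o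
        = a * fd τ q.1 m.2.1 o + b * fd τ' q.1 m.2.1 o + c * fd τ'' q.1 m.2.1 o := by
      cases o with
      | none =>
        simp only [fd]
        linear_combination (-(m.2.1.2 q.1)) * h
      | some j => simp [fd]
    simp only [Prod.fst_add, Prod.smul_fst, Pi.add_apply, Pi.smul_apply, smul_eq_mul, hfd]
    linear_combination (-((q.2 *ᵥ m.2.2.1) o)) * h
  · simp only [ff, Prod.fst_add, Prod.snd_add, Prod.smul_fst, Prod.smul_snd]
    rw [← add_smul, ← add_smul, h, one_smul]
  · refine LinearMap.ext fun w => ?_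
    simp [ff]

end span

section affine
variable {E : Type*} [AddCommGroup E] [Module Φ E] {l p : ℕ}

theorem tau_aff (A A' A'' : (Fin p → Φ) →ₗ[Φ] (E →ₗ[Φ] E)) (a b c : Φ) (h : a + b + c = 1) :
    tau l (a • A + b • A' + c • A'') = a • tau l A + b • tau l A' + c • tau l A'' := by
  refine LinearMap.ext fun d => LinearMap.ext fun v => LinearMap.ext fun w => ?_
  simp only [LinearMap.add_apply, LinearMap.smul_apply, smul_eq_mul]
  simp only [tau_apply, LinearMap.add_apply, LinearMap.smul_apply, map_add, map_smul, smul_eq_mul]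
  linear_combination (-(∑ j, d j * om (v.2 j) (w.2 j))) * h

variable {T R : Type*} [AddCommGroup T] [Module Φ T] [AddCommGroup R] [Module Φ R] {s : ℕ}

theorem sysA_aff (X Y X' Y' X'' Y'' : T →ₗ[Φ] T) (a b c : Φ) (h : a + b + c = 1) :
    sysA s (opA R (a • X + b • X' + c • X'') (a • Y + b • Y' + c • Y''))
      = a • sysA s (opA R X Y) + b • sysA s (opA R X' Y') + c • sysA s (opA R X'' Y'') := by
  refine LinearMap.ext fun d => LinearMap.ext fun e => ?_
  have e4 : ∀ f : Fin 4 → EE T R, ∑ i, f i = f 0 + f 1 + f 2 + f 3 := fun f => by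
      rw [Fin.sum_univ_four]
  simp only [sysA, LinearMap.coe_mk, AddHom.coe_mk, LinearMap.add_apply, LinearMap.smul_apply,
      LinearMap.id_apply, LinearMap.sum_apply, e4]
  simp only [opA, opB, opC]
  have h' : a = 1 - b - c := by linear_combination h
  subst h'
  refine Prod.ext ?_ (Prod.ext ?_ (Prod.ext ?_ ?_))
  · simp
    module
  · simp
    module
  · simp
    module
  · simp
    module

theorem tauXY_aff (p p' p'' : (T →ₗ[Φ] T) × (T →ₗ[Φ] T)) (a b c : Φ) (h : a + b + c = 1) :
    tauXY R l s (a • p + b • p' + c • p'')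
      = a • tauXY R l s p + b • tauXY R l s p' + c • tauXY R l s p'' := by
  rw [tauXY, tauXY, tauXY, tauXY, ← tau_aff _ _ _ a b c h, ← sysA_aff _ _ _ _ _ _ a b c h]
  rfl

end affine

end Pool.Agent.MP_7a2f31_al
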