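import Pool.Agent.MP_7a2f31_al.Wild

open Matrix Module

set_option linter.unusedSectionVars false
set_option linter.unusedSimpArgs false

namespace Pool.Agent.MP_7a2f31_al

variable {Φ : Type*} [Field Φ] {n : ℕ}

theorem isSAAM_iff (V : Submodule Φ (Matrix (Fin n) (Fin n) Φ)) : IsSAAM V ↔ AMat (-1) V := by
  unfold IsSAAM AMat
  simp only [neg_smul, one_smul]

theorem isSASM_iff (V : Submodule Φ (Matrix (Fin n) (Fin n) Φ)) : IsSASM V ↔ AMat 1 V := by
  unfold IsSASM AMat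
  simp only [one_smul]

theorem wild_saam (h2 : (2:Φ) ≠ 0) (hsq : IsSumSq (-1 : Φ)) (k : ℕ) :
    ∃ n₀ : ℕ, ∀ n ≥ n₀, ContainsPairs k (IsMaximalSAAM (Φ := Φ) (n := n)) := by
  obtain ⟨n0, hn0⟩ := family h2 hsq (ε := -1) (by ring) k
  refine ⟨n0, fun n hn => ?_⟩
  obtain ⟨d, B, h1, h3⟩ := hn0 n hn
  refine ⟨d, B, fun p => ⟨(isSAAM_iff _).2 (h1 p).1, fun V' hV' hle => ?_⟩, h3⟩
  exact le_antisymm hle ((h1 p).2 V' ((isSAAM_iff _).1 hV') hle)

theorem wild_sasm (h2 : (2:Φ) ≠ 0) (hsq : IsSumSq (-1 : Φ)) (k : ℕ) :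
    ∃ n₀ : ℕ, ∀ n ≥ n₀, ContainsPairs k (IsMaximalSASM (Φ := Φ) (n := n)) := by
  obtain ⟨n0, hn0⟩ := family h2 hsq (ε := 1) (by ring) k
  refine ⟨n0, fun n hn => ?_⟩
  obtain ⟨d, B, h1, h3⟩ := hn0 n hn
  refine ⟨d, B, fun p => ⟨(isSASM_iff _).2 (h1 p).1, fun V' hV' hle => ?_⟩, h3⟩
  exact le_antisymm hle ((h1 p).2 V' ((isSASM_iff _).1 hV') hle)

/-- if `-1` is not a sum of squares, a vanishing sum of squares has vanishing terms -/
theorem sq_zero_of_not_isSumSq (hsq : ¬ IsSumSq (-1 : Φ)) {f : Fin n → Φ}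
    (hf : ∑ i, f i * f i = 0) (i : Fin n) : f i = 0 := by
  by_contra hi
  apply hsq
  have h1 : f i * f i + ∑ j ∈ Finset.univ.erase i, f j * f j = 0 := by
    have := Finset.add_sum_erase Finset.univ (fun j => f j * f j) (Finset.mem_univ i)
    rw [hf] at this
    exact this
  have h3 : (-1 : Φ) = ∑ j ∈ Finset.univ.erase i, (f j / f i) * (f j / f i) := by
    have h4 : ∀ j, (f j / f i) * (f j / f i) = (f j * f j) / (f i * f i) := by
      intro j; field_simp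
    simp only [h4]
    rw [← Finset.sum_div]
    have h5 : ∑ j ∈ Finset.univ.erase i, f j * f j = -(f i * f i) := by linear_combination h1
    rw [h5, neg_div, div_self (mul_ne_zero hi hi)]
  rw [h3]
  exact IsSumSq.sum_mul_self _ _

theorem eq_zero_of_not_isSumSq (hsq : ¬ IsSumSq (-1 : Φ)) {x : Matrix (Fin n) (Fin n) Φ}
    (hx : xᵀ * x = 0) : x = 0 := by
  ext i j
  have h1 := congrFun (congrFun hx j) j
  rw [Matrix.mul_apply] at h1
  exact sq_zero_of_not_isSumSq hsq (f := fun i => x i j) h1 i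

theorem not_contains (hsq : ¬ IsSumSq (-1 : Φ))
    {P : Submodule Φ (Matrix (Fin n) (Fin n) Φ) → Prop}
    (hP : ∀ V, P V → ∀ x ∈ V, xᵀ * x = 0) : ¬ ContainsPairs 1 P := by
  rintro ⟨d, B, h1, h3⟩
  have hbot : ∀ p, Submodule.span Φ (Set.range fun i => B i p) = ⊥ := by
    intro p
    rw [Submodule.eq_bot_iff]
    intro x hx
    exact eq_zero_of_not_isSumSq hsq (hP _ (h1 p) x hx)
  have h4 : SimSimilar ((0, 0) : Matrix (Fin 1) (Fin 1) Φ × Matrix (Fin 1) (Fin 1) Φ) (1, 0) := by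
    rw [← h3, hbot, hbot]
    refine ⟨1, by simp, ?_⟩
    simp
  obtain ⟨g, h5, -⟩ := h4
  simp at h5

end Pool.Agent.MP_7a2f31_al
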