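import Pool.Agent.MP_7a2f31_al.Space

open Matrix Module

set_option linter.unusedSectionVars false
set_option linter.unusedSimpArgs false

namespace Pool.Agent.MP_7a2f31_al

variable {Φ : Type*} [Field Φ]

/-- a symmetric square root of a sum of squares -/
theorem exists_J_aux {a : Φ} (ha : IsSumSq a) :
    ∃ N : ℕ, 0 < N ∧ ∃ J : Matrix (Fin N) (Fin N) Φ, Jᵀ = J ∧ J * J = a • (1 : Matrix _ _ Φ) := by
  induction ha with
  | zero => exact ⟨1, one_pos, 0, by simp, by simp⟩
  | sq_add c hs ih =>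
    rename_i s
    obtain ⟨N, hN, J, h1, h2⟩ := ih
    refine ⟨N + N, by omega, Matrix.reindex finSumFinEquiv finSumFinEquiv
      (Matrix.fromBlocks J (c • (1 : Matrix _ _ Φ)) (c • (1 : Matrix _ _ Φ)) (-J)), ?_, ?_⟩
    · rw [Matrix.transpose_reindex, Matrix.fromBlocks_transpose]
      simp [h1]
    · simp only [Matrix.reindex_apply]
      rw [Matrix.submatrix_mul_equiv, Matrix.fromBlocks_multiply]
      have h3 : J * J + c • (1 : Matrix _ _ Φ) * c • (1 : Matrix _ _ Φ)
          = (c * c + s) • (1 : Matrix _ _ Φ) := by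
        rw [h2, smul_mul_smul_comm, mul_one, ← add_smul, add_comm]
      have h4 : c • (1 : Matrix _ _ Φ) * c • (1 : Matrix _ _ Φ) + -J * -J
          = (c * c + s) • (1 : Matrix _ _ Φ) := by
        rw [neg_mul_neg, h2, smul_mul_smul_comm, mul_one, ← add_smul]
      have h5 : J * c • (1 : Matrix _ _ Φ) + c • (1 : Matrix _ _ Φ) * -J = 0 := by simp
      have h6 : c • (1 : Matrix _ _ Φ) * J + -J * c • (1 : Matrix _ _ Φ) = 0 := by simp
      rw [h3, h4, h5, h6]
      have h7 : Matrix.fromBlocks ((c * c + s) • (1 : Matrix (Fin N) (Fin N) Φ)) 0 0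
          ((c * c + s) • (1 : Matrix (Fin N) (Fin N) Φ))
          = (c * c + s) • (1 : Matrix (Fin N ⊕ Fin N) (Fin N ⊕ Fin N) Φ) := by
        rw [← Matrix.fromBlocks_one, Matrix.fromBlocks_smul]
        simp
      rw [h7, Matrix.submatrix_smul]
      simp

theorem exists_J (h : IsSumSq (-1 : Φ)) :
    ∃ N : ℕ, 0 < N ∧ ∀ q : ℕ, ∃ J : Matrix (Fin (N * q)) (Fin (N * q)) Φ, Jᵀ = J ∧ J * J = -1 := by
  obtain ⟨N, hN, J, h1, h2⟩ := exists_J_aux h
  refine ⟨N, hN, fun q => ⟨Matrix.reindex finProdFinEquiv finProdFinEquiv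
    (Matrix.blockDiagonal fun _ : Fin q => J), ?_, ?_⟩⟩
  · rw [Matrix.transpose_reindex, Matrix.blockDiagonal_transpose]
    simp [h1]
  · simp only [Matrix.reindex_apply]
    rw [Matrix.submatrix_mul_equiv, ← Matrix.blockDiagonal_mul]
    have h3 : (Matrix.blockDiagonal fun _ : Fin q => J * J) = -1 := by
      rw [h2]
      ext ⟨i, k⟩ ⟨j, k'⟩
      simp only [Matrix.blockDiagonal_apply, Matrix.neg_apply, Matrix.one_apply, Prod.mk.injEq,
        Matrix.smul_apply]
      by_cases h5 : k = k' <;> by_cases h6 : i = j <;> simp [h5, h6]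
    have h4 : (-1 : Matrix (Fin N × Fin q) (Fin N × Fin q) Φ).submatrix finProdFinEquiv.symm
        finProdFinEquiv.symm = -((1 : Matrix (Fin N × Fin q) (Fin N × Fin q) Φ).submatrix
        finProdFinEquiv.symm finProdFinEquiv.symm) := rfl
    rw [h3, h4, Matrix.submatrix_one_equiv]

theorem exists_iso {K : Type*} [Fintype K] [DecidableEq K] (h2 : (2:Φ) ≠ 0) (J : Matrix K K Φ)
    (hJ : Jᵀ = J) (hJ2 : J * J = -1) :
    ∃ θ : ((K → Φ) × (K → Φ)) ≃ₗ[Φ] (K ⊕ K → Φ),
      ∀ x y, θ x ⬝ᵥ θ y = x.1 ⬝ᵥ y.2 + x.2 ⬝ᵥ y.1 := by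
  have hh : (2:Φ)⁻¹ + (2:Φ)⁻¹ = 1 := by
    rw [← two_mul, mul_inv_cancel₀ h2]
  have hJJ : ∀ x : K → Φ, J *ᵥ (J *ᵥ x) = -x := by
    intro x
    rw [mulVec_mulVec, hJ2, neg_mulVec, one_mulVec]
  let f : ((K → Φ) × (K → Φ)) →ₗ[Φ] (K ⊕ K → Φ) :=
    { toFun := fun x => Sum.elim (x.1 + (2:Φ)⁻¹ • x.2) (J *ᵥ (x.1 - (2:Φ)⁻¹ • x.2))
      map_add' := by
        intro x y
        ext (i | i)
        · simp only [Sum.elim_inl, Pi.add_apply, Prod.fst_add, Prod.snd_add, Pi.smul_apply,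
            smul_eq_mul]
          ring
        · have : (x + y).1 - (2:Φ)⁻¹ • (x + y).2
            = (x.1 - (2:Φ)⁻¹ • x.2) + (y.1 - (2:Φ)⁻¹ • y.2) := by
            rw [Prod.fst_add, Prod.snd_add, smul_add]; abel
          simp only [Sum.elim_inr, Pi.add_apply, this, mulVec_add]
      map_smul' := by
        intro c x
        ext (i | i)
        · simp only [Sum.elim_inl, Pi.add_apply, Prod.smul_fst, Prod.smul_snd, Pi.smul_apply,
            smul_eq_mul, RingHom.id_apply]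
          ring
        · have : (c • x).1 - (2:Φ)⁻¹ • (c • x).2 = c • (x.1 - (2:Φ)⁻¹ • x.2) := by
            rw [Prod.smul_fst, Prod.smul_snd, smul_sub, smul_comm]
          simp only [Sum.elim_inr, Pi.smul_apply, this, mulVec_smul, RingHom.id_apply] }
  have hf : ∀ x, f x = Sum.elim (x.1 + (2:Φ)⁻¹ • x.2) (J *ᵥ (x.1 - (2:Φ)⁻¹ • x.2)) := fun _ => rfl
  let g : (K ⊕ K → Φ) → ((K → Φ) × (K → Φ)) := fun y =>
    ((2:Φ)⁻¹ • ((fun i => y (Sum.inl i)) - J *ᵥ (fun i => y (Sum.inr i))),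
      (fun i => y (Sum.inl i)) + J *ᵥ (fun i => y (Sum.inr i)))
  have hgf : ∀ x, g (f x) = x := by
    intro x
    simp only [g, hf, Sum.elim_inl, Sum.elim_inr]
    have e1 : (fun i => (J *ᵥ (x.1 - (2:Φ)⁻¹ • x.2)) i) = J *ᵥ (x.1 - (2:Φ)⁻¹ • x.2) := rfl
    have e2 : (fun i => (x.1 + (2:Φ)⁻¹ • x.2) i) = x.1 + (2:Φ)⁻¹ • x.2 := rfl
    rw [e1, e2, hJJ]
    refine Prod.ext ?_ ?_
    · funext i
      simp only [Pi.smul_apply, Pi.sub_apply, Pi.add_apply, Pi.neg_apply, smul_eq_mul]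
      linear_combination (x.1 i) * hh
    · funext i
      simp only [Pi.smul_apply, Pi.sub_apply, Pi.add_apply, Pi.neg_apply, smul_eq_mul]
      linear_combination (x.2 i) * hh
  have hfg : ∀ y, f (g y) = y := by
    intro y
    rw [hf]
    funext i
    rcases i with i | i
    · simp only [g, Sum.elim_inl, Pi.smul_apply, Pi.sub_apply, Pi.add_apply, smul_eq_mul]
      linear_combination (y (Sum.inl i)) * hh
    · simp only [g, Sum.elim_inr]
      have : (2:Φ)⁻¹ • ((fun i => y (Sum.inl i)) - J *ᵥ (fun i => y (Sum.inr i)))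
        - (2:Φ)⁻¹ • ((fun i => y (Sum.inl i)) + J *ᵥ (fun i => y (Sum.inr i)))
        = - (J *ᵥ (fun i => y (Sum.inr i))) := by
        funext i
        simp only [Pi.smul_apply, Pi.sub_apply, Pi.add_apply, smul_eq_mul, Pi.neg_apply]
        linear_combination (-(J *ᵥ (fun i => y (Sum.inr i))) i) * hh
      rw [this, mulVec_neg, hJJ, neg_neg]
  refine ⟨{ f with invFun := g, left_inv := hgf, right_inv := hfg }, fun x y => ?_⟩
  change f x ⬝ᵥ f y = _
  rw [hf, hf]
  have hd : ∀ (a b c d : K → Φ), (Sum.elim a b : K ⊕ K → Φ) ⬝ᵥ Sum.elim c d = a ⬝ᵥ c + b ⬝ᵥ d := by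
    intro a b c d
    simp [dotProduct, Fintype.sum_sum_type]
  rw [hd]
  have h3 : ∀ a b : K → Φ, (J *ᵥ a) ⬝ᵥ (J *ᵥ b) = - (a ⬝ᵥ b) := by
    intro a b
    rw [dotProduct_mulVec, ← mulVec_transpose, hJ, hJJ, neg_dotProduct]
  rw [h3]
  simp only [add_dotProduct, sub_dotProduct, dotProduct_add, dotProduct_sub, smul_dotProduct,
    dotProduct_smul, smul_eq_mul]
  linear_combination (x.1 ⬝ᵥ y.2 + x.2 ⬝ᵥ y.1) * hh

/-- Witt decomposition: every nondegenerate symmetric bilinear space is the sum of a hyperbolic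
space and an anisotropic space. -/
theorem witt.{u} {Φ : Type*} [Field Φ] (h2 : (2:Φ) ≠ 0) (d : ℕ) :
    ∀ (V : Type u) [AddCommGroup V] [Module Φ V] [FiniteDimensional Φ V]
      (B : V →ₗ[Φ] V →ₗ[Φ] Φ) (_ : ∀ x y, B x y = B y x) (_ : ∀ x, (∀ y, B x y = 0) → x = 0)
      (_ : finrank Φ V = d),
    ∃ (h : ℕ) (W : Type u) (_ : AddCommGroup W) (_ : Module Φ W) (bW : W →ₗ[Φ] W →ₗ[Φ] Φ)
      (ψ : ((Fin h → Φ) × (Fin h → Φ) × W) ≃ₗ[Φ] V),
      (∀ w, bW w w = 0 → w = 0) ∧
      ∀ x y, B (ψ x) (ψ y) = x.1 ⬝ᵥ y.2.1 + x.2.1 ⬝ᵥ y.1 + bW x.2.2 y.2.2 := by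
  induction d using Nat.strong_induction_on with
  | _ d ih =>
  intro V _ _ _ B hB hnd hd
  by_cases haniso : ∀ x, B x x = 0 → x = 0
  · let f : ((Fin 0 → Φ) × (Fin 0 → Φ) × V) →ₗ[Φ] V :=
      (LinearMap.snd Φ _ _) ∘ₗ (LinearMap.snd Φ _ _)
    have hf : Function.Bijective f := by
      constructor
      · intro x y hxy
        exact Prod.ext (Subsingleton.elim _ _) (Prod.ext (Subsingleton.elim _ _) hxy)
      · intro v
        exact ⟨(0, 0, v), rfl⟩
    refine ⟨0, V, inferInstance, inferInstance, B, LinearEquiv.ofBijective f hf, haniso, ?_⟩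
    intro x y
    simp [f, dotProduct]
  · push Not at haniso
    obtain ⟨v, hv, hv0⟩ := haniso
    have hex : ∃ y, B v y ≠ 0 := by
      by_contra hcon
      push Not at hcon
      exact hv0 (hnd v hcon)
    obtain ⟨y, hy⟩ := hex
    obtain ⟨w0, hw0⟩ : ∃ w0, B v w0 = 1 := ⟨(B v y)⁻¹ • y, by
      rw [map_smul, smul_eq_mul, inv_mul_cancel₀ hy]⟩
    obtain ⟨w, hvw, hww⟩ : ∃ w, B v w = 1 ∧ B w w = 0 := by
      refine ⟨w0 - (B w0 w0 * 2⁻¹) • v, ?_, ?_⟩
      · rw [map_sub, map_smul, hv, smul_zero, sub_zero, hw0]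
      · simp only [map_sub, map_smul, LinearMap.sub_apply, LinearMap.smul_apply, smul_eq_mul, hv,
          hw0, hB w0 v]
        have : (2:Φ) * 2⁻¹ = 1 := mul_inv_cancel₀ h2
        linear_combination (-(B w0 w0)) * this
    have hwv : B w v = 1 := by rw [hB, hvw]
    let V' : Submodule Φ V := LinearMap.ker (B v) ⊓ LinearMap.ker (B w)
    have hV' : ∀ x : V', B v x = 0 ∧ B w x = 0 := fun x => ⟨x.2.1, x.2.2⟩
    have hlt : finrank Φ V' < d := by
      rw [← hd]
      apply Submodule.finrank_lt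
      intro htop
      have : v ∈ V' := by rw [htop]; trivial
      have h3 : B w v = 0 := this.2
      rw [hwv] at h3
      exact one_ne_zero h3
    let B' : V' →ₗ[Φ] V' →ₗ[Φ] Φ := B.domRestrict₁₂ V' V'
    have hB' : ∀ x y : V', B' x y = B x y := fun x y => rfl
    have hproj : ∀ z : V, z - (B w z) • v - (B v z) • w ∈ V' := by
      intro z
      constructor
      · change B v _ = 0
        simp [hv, hvw]
      · change B w _ = 0
        simp [hwv, hww]
    obtain ⟨h, W, i1, i2, bW, ψ', haW, hψ'⟩ := ih _ hlt V' B' (fun x y => hB x y) (by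
      intro x hx
      apply Subtype.ext
      apply hnd
      intro z
      have h3 : z = (B w z) • v + (B v z) • w + (z - (B w z) • v - (B v z) • w) := by abel
      rw [h3, map_add, map_add, map_smul, map_smul, hB x v, hB x w, (hV' x).1, (hV' x).2,
        smul_zero, smul_zero, zero_add, zero_add]
      exact hx ⟨_, hproj z⟩) rfl
    let f : ((Fin (h + 1) → Φ) × (Fin (h + 1) → Φ) × W) →ₗ[Φ] V :=
      { toFun := fun x => x.1 0 • v + x.2.1 0 • w +
          (ψ' (fun i => x.1 i.succ, fun i => x.2.1 i.succ, x.2.2) : V)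
        map_add' := by
          intro x y
          have h5 : ((fun i : Fin h => (x + y).1 i.succ, fun i : Fin h => (x + y).2.1 i.succ,
              (x + y).2.2) : (Fin h → Φ) × (Fin h → Φ) × W)
            = (fun i => x.1 i.succ, fun i => x.2.1 i.succ, x.2.2)
              + (fun i => y.1 i.succ, fun i => y.2.1 i.succ, y.2.2) := rfl
          rw [h5, map_add]
          simp only [Prod.fst_add, Prod.snd_add, Pi.add_apply, add_smul, Submodule.coe_add]
          abel
        map_smul' := by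
          intro c x
          have h5 : ((fun i : Fin h => (c • x).1 i.succ, fun i : Fin h => (c • x).2.1 i.succ,
              (c • x).2.2) : (Fin h → Φ) × (Fin h → Φ) × W)
            = c • (fun i => x.1 i.succ, fun i => x.2.1 i.succ, x.2.2) := rfl
          rw [h5, map_smul]
          simp only [Prod.smul_fst, Prod.smul_snd, Pi.smul_apply, smul_eq_mul, mul_smul,
            Submodule.coe_smul, smul_add, RingHom.id_apply] }
    have hf : ∀ x, f x = x.1 0 • v + x.2.1 0 • w +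
          (ψ' (fun i => x.1 i.succ, fun i => x.2.1 i.succ, x.2.2) : V) := fun _ => rfl
    have hBv : ∀ x, B v (f x) = x.2.1 0 := by
      intro x
      rw [hf, map_add, map_add, map_smul, map_smul, hv, hvw, (hV' _).1]
      simp
    have hBw : ∀ x, B w (f x) = x.1 0 := by
      intro x
      rw [hf, map_add, map_add, map_smul, map_smul, hwv, hww, (hV' _).2]
      simp
    have hbij : Function.Bijective f := by
      constructor
      · rw [injective_iff_map_eq_zero]
        intro x hx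
        have e1 : x.2.1 0 = 0 := by rw [← hBv, hx, map_zero]
        have e2 : x.1 0 = 0 := by rw [← hBw, hx, map_zero]
        rw [hf, e1, e2, zero_smul, zero_smul, zero_add, zero_add] at hx
        have e3 := (map_eq_zero_iff ψ' ψ'.injective).1 (Subtype.ext hx)
        have e4 : ∀ i : Fin h, x.1 i.succ = 0 := fun i => congrFun (congrArg (fun p => p.1) e3) i
        have e5 : ∀ i : Fin h, x.2.1 i.succ = 0 :=
          fun i => congrFun (congrArg (fun p => p.2.1) e3) i
        have e6 : x.2.2 = 0 := congrArg (fun p => p.2.2) e3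
        refine Prod.ext ?_ (Prod.ext ?_ e6)
        · funext i
          exact Fin.cases e2 e4 i
        · funext i
          exact Fin.cases e1 e5 i
      · intro z
        let y := ψ'.symm ⟨_, hproj z⟩
        have hy : ψ' y = ⟨_, hproj z⟩ := ψ'.apply_symm_apply _
        refine ⟨(Fin.cons (B w z) y.1, Fin.cons (B v z) y.2.1, y.2.2), ?_⟩
        rw [hf]
        simp only [Fin.cons_zero, Fin.cons_succ]
        have : ((fun i => y.1 i, fun i => y.2.1 i, y.2.2) : (Fin h → Φ) × (Fin h → Φ) × W) = y := rfl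
        rw [this, hy]
        simp
    refine ⟨h + 1, W, i1, i2, bW, LinearEquiv.ofBijective f hbij, haW, ?_⟩
    intro x y
    change B (f x) (f y) = _
    have h6 : ∀ z, B (f x) z = x.1 0 * B v z + x.2.1 0 * B w z +
        B (ψ' (fun i => x.1 i.succ, fun i => x.2.1 i.succ, x.2.2) : V) z := by
      intro z
      rw [hf]
      simp
    have h7 : ∀ q : V', B (q : V) (f y)
        = B' q (ψ' (fun i => y.1 i.succ, fun i => y.2.1 i.succ, y.2.2)) := by
      intro q
      rw [hf, map_add, map_add, map_smul, map_smul, hB q v, hB q w, (hV' q).1, (hV' q).2]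
      simp [hB']
    rw [h6, hBv, hBw, h7, hψ']
    simp only [dotProduct, Fin.sum_univ_succ]
    ring

/-- Decomposition of the standard form `Σ y_i²` in large dimension. -/
theorem decomp.{u} {Φ : Type u} [Field Φ] (h2 : (2:Φ) ≠ 0) (hsq : IsSumSq (-1 : Φ)) (H0 : ℕ) :
    ∃ n0 : ℕ, ∀ n ≥ n0, ∃ h ≥ H0, ∃ (W : Type u) (_ : AddCommGroup W) (_ : Module Φ W)
      (bW : W →ₗ[Φ] W →ₗ[Φ] Φ) (ψ : ((Fin h → Φ) × (Fin h → Φ) × W) ≃ₗ[Φ] (Fin n → Φ)),
      (∀ w, bW w w = 0 → w = 0) ∧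
      ∀ x y, ψ x ⬝ᵥ ψ y = x.1 ⬝ᵥ y.2.1 + x.2.1 ⬝ᵥ y.1 + bW x.2.2 y.2.2 := by
  obtain ⟨N, hN, hJ⟩ := exists_J hsq
  obtain ⟨J, hJ1, hJ2⟩ := hJ H0
  obtain ⟨θ0, hθ0⟩ := exists_iso h2 J hJ1 hJ2
  refine ⟨N * H0 + N * H0, fun n hn => ?_⟩
  obtain ⟨s, rfl⟩ := Nat.exists_eq_add_of_le hn
  let B : (Fin s → Φ) →ₗ[Φ] (Fin s → Φ) →ₗ[Φ] Φ := dotProductBilin Φ Φ
  have hB : ∀ x y, B x y = x ⬝ᵥ y := fun x y => rfl
  obtain ⟨h', W, i1, i2, bW, ψ', haW, hψ'⟩ := witt h2 s (Fin s → Φ) B
    (fun x y => dotProduct_comm x y) (fun x hx => dotProduct_eq_zero _ hx)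
    (by rw [finrank_fintype_fun_eq_card, Fintype.card_fin])
  refine ⟨N * H0 + h', by nlinarith, W, i1, i2, bW, ?_⟩
  -- splitting off the first coordinates
  let sp : ∀ a b : ℕ, (Fin (a + b) → Φ) ≃ₗ[Φ] ((Fin a → Φ) × (Fin b → Φ)) := fun a b =>
    (LinearEquiv.funCongrLeft Φ Φ finSumFinEquiv).trans (LinearEquiv.sumArrowLequivProdArrow _ _ Φ Φ)
  have hsp : ∀ a b (x y : Fin (a + b) → Φ), x ⬝ᵥ y
      = (sp a b x).1 ⬝ᵥ (sp a b y).1 + (sp a b x).2 ⬝ᵥ (sp a b y).2 := by
    intro a b x y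
    simp only [dotProduct]
    rw [← finSumFinEquiv.sum_comp, Fintype.sum_sum_type]
    rfl
  let F : ((Fin (N * H0 + h') → Φ) × (Fin (N * H0 + h') → Φ) × W) →ₗ[Φ]
      ((Fin (N * H0) ⊕ Fin (N * H0) → Φ) × (Fin s → Φ)) :=
    { toFun := fun x => (θ0 ((sp _ _ x.1).1, (sp _ _ x.2.1).1),
        ψ' ((sp _ _ x.1).2, (sp _ _ x.2.1).2, x.2.2))
      map_add' := by
        intro x y
        simp only [Prod.fst_add, Prod.snd_add, map_add]
        rw [← Prod.mk_add_mk, ← Prod.mk_add_mk, ← Prod.mk_add_mk, map_add, map_add]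
        rfl
      map_smul' := by
        intro c x
        simp only [Prod.smul_fst, Prod.smul_snd, map_smul, RingHom.id_apply]
        rw [← Prod.smul_mk, ← Prod.smul_mk, ← Prod.smul_mk, map_smul, map_smul]
        rfl }
  have hF : ∀ x, F x = (θ0 ((sp _ _ x.1).1, (sp _ _ x.2.1).1),
        ψ' ((sp _ _ x.1).2, (sp _ _ x.2.1).2, x.2.2)) := fun _ => rfl
  have hFbij : Function.Bijective F := by
    constructor
    · rw [injective_iff_map_eq_zero]
      intro x hx
      rw [hF] at hx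
      have e1 := (map_eq_zero_iff θ0 θ0.injective).1 (congrArg Prod.fst hx)
      have e2 := (map_eq_zero_iff ψ' ψ'.injective).1 (congrArg Prod.snd hx)
      have e3 : sp _ _ x.1 = 0 := Prod.ext (congrArg (fun p => p.1) e1) (congrArg (fun p => p.1) e2)
      have e4 : sp _ _ x.2.1 = 0 :=
        Prod.ext (congrArg (fun p => p.2) e1) (congrArg (fun p => p.2.1) e2)
      exact Prod.ext ((map_eq_zero_iff _ (sp _ _).injective).1 e3)
        (Prod.ext ((map_eq_zero_iff _ (sp _ _).injective).1 e4) (congrArg (fun p => p.2.2) e2))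
    · rintro ⟨y1, y2⟩
      refine ⟨((sp _ _).symm ((θ0.symm y1).1, (ψ'.symm y2).1),
        (sp _ _).symm ((θ0.symm y1).2, (ψ'.symm y2).2.1), (ψ'.symm y2).2.2), ?_⟩
      rw [hF]
      simp
  let G : ((Fin (N * H0) ⊕ Fin (N * H0) → Φ) × (Fin s → Φ)) ≃ₗ[Φ]
      (Fin (N * H0 + N * H0 + s) → Φ) :=
    ((LinearEquiv.funCongrLeft Φ Φ finSumFinEquiv.symm).prodCongr (LinearEquiv.refl Φ _)).trans
      (sp (N * H0 + N * H0) s).symm
  have hG : ∀ x y, G x ⬝ᵥ G y = x.1 ⬝ᵥ y.1 + x.2 ⬝ᵥ y.2 := by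
    intro x y
    rw [hsp]
    simp only [G, LinearEquiv.trans_apply, LinearEquiv.apply_symm_apply]
    congr 1
    change (x.1 ∘ finSumFinEquiv.symm) ⬝ᵥ (y.1 ∘ finSumFinEquiv.symm) = _
    exact comp_equiv_dotProduct_comp_equiv x.1 y.1 _
  refine ⟨(LinearEquiv.ofBijective F hFbij).trans G, haW, fun x y => ?_⟩
  change G (F x) ⬝ᵥ G (F y) = _
  rw [hG, hF, hF]
  have h8 := hψ' ((sp _ _ x.1).2, (sp _ _ x.2.1).2, x.2.2) ((sp _ _ y.1).2, (sp _ _ y.2.1).2, y.2.2)
  rw [hB] at h8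
  simp only [hθ0, h8]
  rw [hsp _ _ x.1 y.2.1, hsp _ _ x.2.1 y.1]
  ring

/-- The space `MM` is isometric to the standard sum of squares once the hyperbolic ranks agree. -/
theorem exists_theta {J : Type*} [Fintype J] [DecidableEq J] {U : Type*} [AddCommGroup U]
    [Module Φ U] [FiniteDimensional Φ U] {W : Type*} [AddCommGroup W] [Module Φ W]
    {bW : W →ₗ[Φ] W →ₗ[Φ] Φ} {h n : ℕ}
    (hcard : Fintype.card (Option J) + finrank Φ U = h)
    (ψ : ((Fin h → Φ) × (Fin h → Φ) × W) ≃ₗ[Φ] (Fin n → Φ))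
    (hψ : ∀ x y, ψ x ⬝ᵥ ψ y = x.1 ⬝ᵥ y.2.1 + x.2.1 ⬝ᵥ y.1 + bW x.2.2 y.2.2) :
    ∃ θ : MM Φ J U W ≃ₗ[Φ] (Fin n → Φ), ∀ m m', θ m ⬝ᵥ θ m' = bM bW m m' := by
  classical
  let b := finBasis Φ U
  have e : Option J ⊕ Fin (finrank Φ U) ≃ Fin h :=
    Fintype.equivFinOfCardEq (by rw [Fintype.card_sum, Fintype.card_fin, hcard])
  let f0 : MM Φ J U W →ₗ[Φ] ((Fin h → Φ) × (Fin h → Φ) × W) :=
      { toFun := fun m => ((Sum.elim m.1 (b.repr m.2.1.1)) ∘ e.symm,
          (Sum.elim m.2.2.1 (fun i => m.2.1.2 (b i))) ∘ e.symm, m.2.2.2)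
        map_add' := by
          intro m m'
          refine Prod.ext ?_ (Prod.ext ?_ rfl) <;> funext i <;>
            simp only [Function.comp_apply, Prod.fst_add, Prod.snd_add, Pi.add_apply] <;>
            rcases e.symm i with i | i <;> simp
        map_smul' := by
          intro c m
          refine Prod.ext ?_ (Prod.ext ?_ rfl) <;> funext i <;>
            simp only [Function.comp_apply, Prod.smul_fst, Prod.smul_snd, Pi.smul_apply] <;>
            rcases e.symm i with i | i <;> simp }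
  have hf0 : ∀ m, f0 m = ((Sum.elim m.1 (b.repr m.2.1.1)) ∘ e.symm,
          (Sum.elim m.2.2.1 (fun i => m.2.1.2 (b i))) ∘ e.symm, m.2.2.2) := fun _ => rfl
  have hbij : Function.Bijective f0 := by
    constructor
    · rw [injective_iff_map_eq_zero]
      intro m hm
      rw [hf0] at hm
      have e1 : Sum.elim m.1 (b.repr m.2.1.1) = (0 : Option J ⊕ Fin (finrank Φ U) → Φ) := by
        have := congrArg (fun p => p.1) hm
        funext i
        have h3 := congrFun this (e i)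
        simpa using h3
      have e2 : Sum.elim m.2.2.1 (fun i => m.2.1.2 (b i))
          = (0 : Option J ⊕ Fin (finrank Φ U) → Φ) := by
        have := congrArg (fun p => p.2.1) hm
        funext i
        have h3 := congrFun this (e i)
        simpa using h3
      refine Prod.ext ?_ (Prod.ext (Prod.ext ?_ ?_) (Prod.ext ?_ (congrArg (fun p => p.2.2) hm)))
      · funext o
        exact congrFun e1 (Sum.inl o)
      · have : b.repr m.2.1.1 = 0 := by
          ext i
          exact congrFun e1 (Sum.inr i)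
        exact (map_eq_zero_iff b.repr b.repr.injective).1 this
      · apply b.ext
        intro i
        exact congrFun e2 (Sum.inr i)
      · funext o
        exact congrFun e2 (Sum.inl o)
    · rintro ⟨x, ξ, w⟩
      refine ⟨(fun o => x (e (Sum.inl o)), (b.equivFun.symm (fun i => x (e (Sum.inr i))),
        b.constr Φ (fun i => ξ (e (Sum.inr i)))), fun o => ξ (e (Sum.inl o)), w), ?_⟩
      rw [hf0]
      refine Prod.ext ?_ (Prod.ext ?_ rfl)
      · funext i
        obtain ⟨i, rfl⟩ := e.surjective i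
        simp only [Function.comp_apply, Equiv.symm_apply_apply]
        rcases i with i | i
        · rfl
        · simp only [Sum.elim_inr]
          rw [← Basis.equivFun_apply, LinearEquiv.apply_symm_apply]
      · funext i
        obtain ⟨i, rfl⟩ := e.surjective i
        simp only [Function.comp_apply, Equiv.symm_apply_apply]
        rcases i with i | i
        · rfl
        · simp only [Sum.elim_inr]
          rw [Basis.constr_basis]
  refine ⟨(LinearEquiv.ofBijective f0 hbij).trans ψ, fun m m' => ?_⟩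
  rw [LinearEquiv.trans_apply, LinearEquiv.trans_apply, hψ, LinearEquiv.ofBijective_apply,
    LinearEquiv.ofBijective_apply, hf0, hf0]
  have hd : ∀ (a c : Option J → Φ) (b d : Fin (finrank Φ U) → Φ),
      (Sum.elim a b : Option J ⊕ Fin (finrank Φ U) → Φ) ⬝ᵥ Sum.elim c d = a ⬝ᵥ c + b ⬝ᵥ d := by
    intro a b c d
    simp [dotProduct, Fintype.sum_sum_type]
  have hp : ∀ (s : U) (φ : Dual Φ U),
      (b.repr s : Fin (finrank Φ U) → Φ) ⬝ᵥ (fun i => φ (b i)) = φ s := by
    intro s φ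
    conv_rhs => rw [← b.sum_repr s]
    rw [map_sum]
    simp only [map_smul, smul_eq_mul, dotProduct]
  simp only [comp_equiv_dotProduct_comp_equiv]
  rw [hd, hd, hp, dotProduct_comm (fun i => m.2.1.2 (b i)), hp]
  simp only [bM, bB]
  ring

end Pool.Agent.MP_7a2f31_al
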