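import Pool.Agent.MP_7a2f31_al.Support

open Matrix Module

set_option linter.unusedSectionVars false
set_option linter.unusedSimpArgs false

namespace Pool.Agent.MP_7a2f31_al

variable {Φ : Type*} [Field Φ]

section general
variable {E : Type*} [AddCommGroup E] [Module Φ E] {l s p : ℕ}

/-- the operator on `E ⊕ E*` induced by an endomorphism of `E` -/
def hat (a : E →ₗ[Φ] E) (x : E × Dual Φ E) : E × Dual Φ E := (a x.1, x.2 ∘ₗ a)

theorem hat_add (a : E →ₗ[Φ] E) (x y : E × Dual Φ E) : hat a (x + y) = hat a x + hat a y := by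
  simp [hat, LinearMap.add_comp]

theorem hat_smul (a : E →ₗ[Φ] E) (c : Φ) (x : E × Dual Φ E) : hat a (c • x) = c • hat a x := by
  simp [hat, LinearMap.smul_comp]

theorem hat_sq {a : E →ₗ[Φ] E} (ha : a * a = 0) (x : E × Dual Φ E) : hat a (hat a x) = 0 := by
  have h1 : ∀ v, a (a v) = 0 := fun v => LinearMap.congr_fun ha v
  refine Prod.ext (h1 _) ?_
  refine LinearMap.ext fun v => ?_
  simp [hat, h1]

/-- the indices carrying the four operators -/
def io (s : ℕ) (i : Fin 4) : Fin (s + 5) := ⟨i.1 + 1, by omega⟩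

theorem io_inj (s : ℕ) : Function.Injective (io s) := by
  intro i j h
  have := congrArg Fin.val h
  simp only [io] at this
  exact Fin.ext (by omega)

theorem io_ne (s : ℕ) (i : Fin 4) : io s i ≠ 0 := by
  intro h
  have := congrArg Fin.val h
  simp [io] at this

/-- the linear system `c ↦ (Σ c_j) + Σ c_{i+1} a_i` -/
def sysA (s : ℕ) (a : Fin 4 → (E →ₗ[Φ] E)) : (Fin (s + 5) → Φ) →ₗ[Φ] (E →ₗ[Φ] E) where
  toFun c := (∑ j, c j) • LinearMap.id + ∑ i : Fin 4, c (io s i) • a i
  map_add' c d := by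
    simp only [Pi.add_apply, add_smul, Finset.sum_add_distrib]
    abel
  map_smul' t c := by
    simp only [Pi.smul_apply, smul_eq_mul, RingHom.id_apply, smul_add, Finset.smul_sum, smul_smul,
      Finset.mul_sum]

theorem sysA_other (a : Fin 4 → (E →ₗ[Φ] E)) (j : Fin (s + 5)) (hj : ∀ i, io s i ≠ j) :
    sysA s a (Pi.single j 1) = LinearMap.id := by
  simp only [sysA, LinearMap.coe_mk, AddHom.coe_mk]
  have h1 : ∀ i : Fin 4, (Pi.single j (1:Φ) : Fin (s + 5) → Φ) (io s i) = 0 := by
    intro i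
    rw [Pi.single_eq_of_ne (hj i)]
  simp only [h1, zero_smul, Finset.sum_const_zero, add_zero, Finset.sum_pi_single', Finset.mem_univ,
    if_true, one_smul]

theorem sysA_zero (a : Fin 4 → (E →ₗ[Φ] E)) : sysA s a (Pi.single 0 1) = LinearMap.id :=
  sysA_other a 0 (io_ne s)

theorem sysA_succ (a : Fin 4 → (E →ₗ[Φ] E)) (i : Fin 4) :
    sysA s a (Pi.single (io s i) 1) = LinearMap.id + a i := by
  simp only [sysA, LinearMap.coe_mk, AddHom.coe_mk]
  rw [Finset.sum_eq_single i]
  · simp
  · intro j _ hj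
    rw [Pi.single_eq_of_ne (fun h => hj (io_inj s h)), zero_smul]
  · simp

theorem bij_one_add {a : E →ₗ[Φ] E} (ha : a * a = 0) :
    Function.Bijective (LinearMap.id + a : E →ₗ[Φ] E) := by
  have h1 : ∀ v, a (a v) = 0 := fun v => LinearMap.congr_fun ha v
  constructor
  · rw [injective_iff_map_eq_zero]
    intro v hv
    have h2 : v + a v = 0 := hv
    have h3 : a v = 0 := by
      have := congrArg a h2
      rwa [map_add, h1, add_zero, map_zero] at this
    rwa [h3, add_zero] at h2
  · intro v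
    refine ⟨v - a v, ?_⟩
    simp [h1]

theorem sysA_bij {a : Fin 4 → (E →ₗ[Φ] E)} (ha : ∀ i, a i * a i = 0) (j : Fin (s + 5)) :
    Function.Bijective (sysA s a (Pi.single j 1)) := by
  by_cases h : ∃ i, io s i = j
  · obtain ⟨i, rfl⟩ := h
    rw [sysA_succ]; exact bij_one_add (ha i)
  · push Not at h
    rw [sysA_other a j h]; exact Function.bijective_id

/-- intrinsic characterisation of the main part -/
theorem main_iff [Nontrivial (Fin p)] {A : (Fin p → Φ) →ₗ[Φ] (E →ₗ[Φ] E)}
    (hA : ∀ j, Function.Bijective (A (Pi.single j 1))) (v : UU Φ E l p) :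
    v.2 = 0 ↔ ∀ i j z, tau l A (Pi.single j 1) z = 0 → tau l A (Pi.single i 1) v z = 0 := by
  constructor
  · intro hv i j z hz
    have h1 := rad_main (hA j) hz
    rw [tau_apply, hv, h1]
    simp [om_zero_left]
  · intro h
    funext i
    apply om_nd
    intro ζ
    obtain ⟨j, hj⟩ := exists_ne i
    have h1 := h i j (0, Pi.single i ζ) (by
      refine LinearMap.ext fun w => ?_
      rw [tau_pad', Pi.single_eq_of_ne hj.symm, zero_mul]
      rfl)
    rw [tau_pad, Pi.single_eq_same, one_mul] at h1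
    exact h1

theorem tau_main_main (A : (Fin p → Φ) →ₗ[Φ] (E →ₗ[Φ] E)) (c : Fin p → Φ)
    (x y : E × Dual Φ E) : tau l A c (x, 0) (y, 0) = om x (hat (A c) y) := by
  rw [tau_main]
  rfl

theorem om_nd_right (z w : E × Dual Φ E) (h : ∀ x, om x z = om x w) : z = w := by
  have h1 : ∀ x, om (z - w) x = 0 := by
    intro x
    rw [om_skew, sub_eq_add_neg, om_add_right]
    have : om x (-w) = - om x w := by
      have h5 := om_smul_right (-1 : Φ) x w
      have h6 : (-1 : Φ) • w = -w := neg_one_smul Φ w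
      rw [h6] at h5
      rw [h5]; ring
    rw [this, h]
    ring
  exact sub_eq_zero.1 (om_nd _ h1)

theorem hat_id (x : E × Dual Φ E) : hat (LinearMap.id) x = x := rfl

theorem hat_id_add (a : E →ₗ[Φ] E) (x : E × Dual Φ E) :
    hat (LinearMap.id + a) x = x + hat a x := by
  refine Prod.ext rfl ?_
  refine LinearMap.ext fun v => ?_
  simp [hat]

variable [FiniteDimensional Φ E] {a a' : Fin 4 → (E →ₗ[Φ] E)}

theorem main_part (hl : finrank Φ E < l)
    (ha : ∀ i, a i * a i = 0) (ha' : ∀ i, a' i * a' i = 0)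
    (P : UU Φ E l (s + 5) ≃ₗ[Φ] UU Φ E l (s + 5)) (H : (Fin (s + 5) → Φ) →ₗ[Φ] (Fin (s + 5) → Φ))
    (hPH : ∀ c v w, tau l (sysA s a') (H c) (P v) (P w) = tau l (sysA s a) c v w) :
    ∃ g : (E × Dual Φ E) ≃ₗ[Φ] (E × Dual Φ E), ∀ i x, g (hat (a i) x) = hat (a' i) (g x) := by
  -- the diagonal entries of `H`
  let μ : Fin (s + 5) → Φ := fun j => H (Pi.single j 1) j
  have hμ0 : ∀ j, μ j ≠ 0 := by
    intro j h0
    have := (supp_eq hl P H hPH (Pi.single j 1) j).1 h0
    simp at this
  have hμ : ∀ j, H (Pi.single j 1) = μ j • Pi.single j 1 := by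
    intro j
    funext i
    by_cases hij : i = j
    · subst hij; simp [μ]
    · rw [(supp_eq hl P H hPH (Pi.single j 1) i).2 (Pi.single_eq_of_ne hij _)]
      simp [Pi.single_eq_of_ne hij]
  have rel : ∀ j v w, μ j * tau l (sysA s a') (Pi.single j 1) (P v) (P w)
      = tau l (sysA s a) (Pi.single j 1) v w := by
    intro j v w
    rw [← hPH, hμ, map_smul]
    rfl
  -- the main part is preserved
  have hmain : ∀ v, v.2 = 0 → (P v).2 = 0 := by
    intro v hv
    rw [main_iff (sysA_bij ha')]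
    intro i j z' hz'
    obtain ⟨z, rfl⟩ := P.surjective z'
    have hz : tau l (sysA s a) (Pi.single j 1) z = 0 := by
      refine LinearMap.ext fun w => ?_
      rw [← rel, hz']
      simp
    have h1 := (main_iff (sysA_bij ha) v).1 hv i j z hz
    rw [← rel] at h1
    exact (mul_eq_zero.1 h1).resolve_left (hμ0 i)
  let g0 : (E × Dual Φ E) →ₗ[Φ] (E × Dual Φ E) :=
    (LinearMap.fst Φ _ _) ∘ₗ P.toLinearMap ∘ₗ (LinearMap.inl Φ _ _)
  have hg0 : ∀ x, P (x, 0) = (g0 x, 0) := fun x => Prod.ext rfl (hmain (x, 0) rfl)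
  have g0inj : Function.Injective g0 := by
    rw [injective_iff_map_eq_zero]
    intro x hx
    have h1 : P (x, 0) = 0 := by rw [hg0, hx]; rfl
    have h3 := (map_eq_zero_iff P P.injective).1 h1
    exact congrArg Prod.fst h3
  let g := LinearEquiv.ofInjectiveEndo g0 g0inj
  have hg : ∀ x, P (x, 0) = (g x, 0) := hg0
  have rel0 : ∀ x y, μ 0 * om (g x) (g y) = om x y := by
    intro x y
    have := rel 0 (x, 0) (y, 0)
    rwa [hg, hg, tau_main_main, tau_main_main, sysA_zero, sysA_zero, hat_id, hat_id] at this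
  have rels : ∀ i y, μ (io s i) • (g y + hat (a' i) (g y)) = μ 0 • (g y + g (hat (a i) y)) := by
    intro i y
    apply om_nd_right
    intro x'
    obtain ⟨x, rfl⟩ := g.surjective x'
    have := rel (io s i) (x, 0) (y, 0)
    rw [hg, hg, tau_main_main, tau_main_main, sysA_succ, sysA_succ, hat_id_add, hat_id_add]
      at this
    rw [om_smul_right, om_smul_right, this, ← map_add, rel0]
  refine ⟨g, fun i y => ?_⟩
  set c := μ (io s i) - μ 0 with hc
  have E1 := rels i y
  have E2 := rels i (hat (a i) y)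
  rw [hat_sq (ha i), map_zero, add_zero] at E2
  have E3 := congrArg (hat (a' i)) E1
  rw [hat_smul, hat_add, hat_sq (ha' i), add_zero, hat_smul, hat_add] at E3
  by_cases hc0 : c = 0
  · have h3 : μ (io s i) = μ 0 := sub_eq_zero.1 hc0
    rw [h3] at E1
    have h4 := smul_right_injective _ (hμ0 0) E1
    exact (add_left_cancel h4).symm
  · -- everything vanishes
    have E4 : ∀ y, (c * c) • g y = (-(2 * μ 0 * μ (io s i))) • hat (a' i) (g (hat (a i) y)) := by
      intro y
      have E1 := rels i y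
      have E2 := rels i (hat (a i) y)
      rw [hat_sq (ha i), map_zero, add_zero] at E2
      have E3 := congrArg (hat (a' i)) E1
      rw [hat_smul, hat_add, hat_sq (ha' i), add_zero, hat_smul, hat_add] at E3
      rw [hc]
      generalize hat (a' i) (g (hat (a i) y)) = p4 at *
      generalize hat (a' i) (g y) = p2 at *
      generalize g (hat (a i) y) = p3 at *
      generalize g y = p1 at *
      linear_combination (norm := module) (μ (io s i) - μ 0) • E1 + μ 0 • E2 - μ (io s i) • E3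
    have h5 : g (hat (a i) y) = 0 := by
      have := E4 (hat (a i) y)
      rw [hat_sq (ha i), map_zero] at this
      have h0 : hat (a' i) (0 : E × Dual Φ E) = 0 := by
        have := hat_smul (a' i) (0:Φ) 0
        simpa using this
      rw [h0, smul_zero] at this
      exact (smul_eq_zero.1 this).resolve_left (mul_ne_zero hc0 hc0)
    have h6 : g y = 0 := by
      have := E4 y
      rw [h5] at this
      have h0 : hat (a' i) (0 : E × Dual Φ E) = 0 := by
        have := hat_smul (a' i) (0:Φ) 0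
        simpa using this
      rw [h0, smul_zero] at this
      exact (smul_eq_zero.1 this).resolve_left (mul_ne_zero hc0 hc0)
    have h0 : hat (a' i) (0 : E × Dual Φ E) = 0 := by
      have := hat_smul (a' i) (0:Φ) 0
      simpa using this
    rw [h5, h6, h0]

end general

section extraction
variable {T R : Type*} [AddCommGroup T] [Module Φ T] [AddCommGroup R] [Module Φ R]

/-- the main module `T ⊕ T ⊕ T ⊕ R` -/
abbrev EE (T R : Type*) := T × T × T × R

/-- `(t,u,s,r) ↦ (0,t,0,0)` -/
def opB (Φ T R : Type*) [Field Φ] [AddCommGroup T] [Module Φ T] [AddCommGroup R] [Module Φ R] :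
    EE T R →ₗ[Φ] EE T R where
  toFun p := (0, p.1, 0, 0)
  map_add' p q := by simp
  map_smul' c p := by simp

/-- `(t,u,s,r) ↦ (0,0,Z u,0)` -/
def opC (R : Type*) [AddCommGroup R] [Module Φ R] (Z : T →ₗ[Φ] T) : EE T R →ₗ[Φ] EE T R where
  toFun p := (0, 0, Z p.2.1, 0)
  map_add' p q := by simp
  map_smul' c p := by simp

/-- the four operators attached to a pair `(X, Y)` -/
def opA (R : Type*) [AddCommGroup R] [Module Φ R] (X Y : T →ₗ[Φ] T) :
    Fin 4 → (EE T R →ₗ[Φ] EE T R) :=
  ![opB Φ T R, opC R LinearMap.id, opC R X, opC R Y]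

theorem opA_sq (X Y : T →ₗ[Φ] T) (i : Fin 4) : opA R X Y i * opA R X Y i = 0 := by
  refine LinearMap.ext fun p => ?_
  fin_cases i <;> simp [opA, opB, opC]

theorem opC_opB (Z : T →ₗ[Φ] T) (x : EE T R × Dual Φ (EE T R)) :
    hat (opC R Z) (hat (opB Φ T R) x) = ((0, 0, Z x.1.1, 0), 0) := by
  refine Prod.ext rfl ?_
  refine LinearMap.ext fun v => ?_
  simp [hat, opB, opC]
  exact map_zero x.2

theorem extraction {X Y X' Y' : T →ₗ[Φ] T} [FiniteDimensional Φ T]
    (g : (EE T R × Dual Φ (EE T R)) ≃ₗ[Φ] (EE T R × Dual Φ (EE T R)))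
    (hg : ∀ i x, g (hat (opA R X Y i) x) = hat (opA R X' Y' i) (g x)) :
    ∃ h : T ≃ₗ[Φ] T, (∀ t, h (X t) = X' (h t)) ∧ ∀ t, h (Y t) = Y' (h t) := by
  let h0 : T →ₗ[Φ] T :=
    (LinearMap.fst Φ T (T × T × R)) ∘ₗ (LinearMap.fst Φ _ _) ∘ₗ g.toLinearMap ∘ₗ
      (LinearMap.inl Φ _ _) ∘ₗ (LinearMap.inl Φ _ _)
  have hh0 : ∀ t, h0 t = (g ((t, 0, 0, 0), 0)).1.1 := fun t => rfl
  have key : ∀ (Z Z' : T →ₗ[Φ] T), (∀ x, g (hat (opC R Z) x) = hat (opC R Z') (g x)) →
      ∀ t, g ((0, 0, Z t, 0), 0) = ((0, 0, Z' (h0 t), 0), 0) := by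
    intro Z Z' hZ t
    have h1 := opC_opB (R := R) Z ((t, 0, 0, 0), 0)
    have h3 := hg 0 ((t, 0, 0, 0), 0)
    simp only [opA, Matrix.cons_val_zero] at h3
    have h4 := hZ (hat (opB Φ T R) ((t, 0, 0, 0), 0))
    rw [h1, h3, opC_opB] at h4
    exact h4
  have k1 := key LinearMap.id LinearMap.id (hg 1)
  have k2 := key X X' (hg 2)
  have k3 := key Y Y' (hg 3)
  have h0inj : Function.Injective h0 := by
    rw [injective_iff_map_eq_zero]
    intro t ht
    have := k1 t
    rw [ht, map_zero] at this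
    have h4 : g ((0, 0, LinearMap.id t, 0), 0) = 0 := this
    have h5 := (map_eq_zero_iff g g.injective).1 h4
    exact congrArg (fun x => x.1.2.2.1) h5
  refine ⟨LinearEquiv.ofInjectiveEndo h0 h0inj, fun t => ?_, fun t => ?_⟩
  · have h3 := k2 t
    have h4 := k1 (X t)
    simp only [LinearMap.id_apply] at h4
    rw [h3] at h4
    exact (congrArg (fun x => x.1.2.2.1) h4).symm
  · have h3 := k3 t
    have h4 := k1 (Y t)
    simp only [LinearMap.id_apply] at h4
    rw [h3] at h4
    exact (congrArg (fun x => x.1.2.2.1) h4).symm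

end extraction

end Pool.Agent.MP_7a2f31_al
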