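import Pool.Agent.MP_7a2f31_al.Space

open Matrix

set_option linter.unusedSectionVars false
set_option linter.unusedSimpArgs false

namespace Pool.Agent.MP_7a2f31_al

variable {Φ : Type*} [Field Φ] {J : Type*} [Fintype J] [DecidableEq J]
  {U : Type*} [AddCommGroup U] [Module Φ U] {W : Type*} [AddCommGroup W] [Module Φ W]
  {τ : (J → Φ) →ₗ[Φ] U →ₗ[Φ] U →ₗ[Φ] Φ} {ε : Φ}

/-- elementary `ε`-symmetric matrices -/
def gam {J : Type*} [DecidableEq J] (ε : Φ) (s t : Option J) : Matrix (Option J) (Option J) Φ :=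
  Matrix.single s t 1 + ε • Matrix.single t s 1

theorem gam_transpose (hε : ε * ε = 1) (s t : Option J) : (gam ε s t)ᵀ = ε • gam ε s t := by
  simp only [gam, transpose_add, transpose_smul, transpose_single, smul_add, smul_smul, hε,
    one_smul]
  abel

theorem gam_mulVec (s t : Option J) (a : Option J → Φ) :
    gam ε s t *ᵥ a = Pi.single s (a t) + ε • Pi.single t (a s) := by
  simp only [gam, add_mulVec, smul_mulVec, single_mulVec, one_mul]
  rfl

theorem mem_VV_gam (hε : ε * ε = 1) (s t : Option J) :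
    xmap W τ ε (0, gam ε s t) ∈ VV W τ ε :=
  ⟨(0, gam ε s t), gam_transpose hε s t, rfl⟩

theorem mem_VV_v (v : U) : xmap W τ ε (v, 0) ∈ VV W τ ε :=
  ⟨(v, 0), by simp [symSub], rfl⟩

theorem fd_zero_left (β : U × Module.Dual Φ U) : fd τ 0 β = 0 := by
  have := fd_smul_left τ (0:Φ) 0 β
  simpa using this

theorem fd_zero_right (v : U) : fd τ v 0 = 0 := by
  have := fd_smul_right τ (0:Φ) v 0
  simpa using this

theorem ff_zero_left (a : Option J → Φ) : ff τ 0 a = 0 := by
  have := ff_smul_left τ (0:Φ) 0 a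
  simpa using this

theorem ff_zero_right (v : U) : ff τ v 0 = 0 := by
  have := ff_smul_right τ (0:Φ) v 0
  simpa using this

theorem xmap_gam (s t : Option J) (m : MM Φ J U W) :
    xmap W τ ε (0, gam ε s t) m
      = (Pi.single s (m.2.2.1 t) + ε • Pi.single t (m.2.2.1 s), 0, 0, 0) := by
  rw [xmap_apply]
  simp only [gam_mulVec, fd_zero_left, ff_zero_left, smul_zero, add_zero]

theorem xmap_v (v : U) (m : MM Φ J U W) :
    xmap W τ ε (v, 0) m = (ε • fd τ v m.2.1, ff τ v m.2.2.1, 0, 0) := by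
  rw [xmap_apply]
  simp only [zero_mulVec, zero_add]

theorem exists_ne_opt [Nonempty J] (t : Option J) : ∃ s : Option J, s ≠ t := exists_ne t

section
variable (h2 : (2:Φ) ≠ 0) (hε : ε * ε = 1) (alt : ∀ c v, τ c v v = 0)
  (c0 : J → Φ) (nd : ∀ x, (∀ v, τ c0 v x = 0) → x = 0)

theorem eps_ne (hε : ε * ε = 1) : ε ≠ 0 := by
  rintro rfl
  simp at hε

/-- the extension of `c : J → Φ` by zero -/
def ext0 (Φ J : Type*) [Field Φ] : (J → Φ) →ₗ[Φ] (Option J → Φ) where
  toFun c := fun o => o.elim 0 c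
  map_add' c d := by ext o; cases o <;> simp
  map_smul' c d := by ext o; cases o <;> simp

theorem ext0_none (c : J → Φ) : ext0 Φ J c none = 0 := rfl
theorem ext0_some (c : J → Φ) (j : J) : ext0 Φ J c (some j) = c j := rfl
theorem rs_ext0 (c : J → Φ) : rs Φ J (ext0 Φ J c) = c := rfl

/-- the distinguished vector -/
def e0 (Φ J : Type*) [Field Φ] [DecidableEq J] : Option J → Φ := Pi.single none 1

theorem e0_none : e0 Φ J none = 1 := by simp [e0]
theorem rs_e0 : rs Φ J (e0 Φ J) = 0 := by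
  ext j
  simp [rs_apply, e0]

theorem opt_decomp (a : Option J → Φ) : a = a none • e0 Φ J + ext0 Φ J (rs Φ J a) := by
  ext o
  cases o with
  | none => simp [e0, ext0_none]
  | some j => simp [e0, ext0_some, rs_apply]

theorem ff_e0 (v : U) : ff τ v (e0 Φ J) = (v, 0) := by
  simp [ff, e0_none, rs_e0]

theorem ff_ext0 (v : U) (c : J → Φ) : ff τ v (ext0 Φ J c) = (0, τ c v) := by
  simp [ff, ext0_none, rs_ext0]

include nd in
theorem gen_lemma (β : U × Module.Dual Φ U) (h : ∀ v a, bB (ff τ v a) β = 0) : β = 0 := by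
  have h1 : β.2 = 0 := by
    ext v
    have := h v (e0 Φ J)
    rw [ff_e0] at this
    simpa [bB] using this
  have h3 : β.1 = 0 := by
    apply nd
    intro v
    have := h v (ext0 Φ J c0)
    rw [ff_ext0] at this
    simpa [bB] using this
  exact Prod.ext h3 h1

include hε nd in
theorem ker_VV [Nonempty J] (m : MM Φ J U W) (h : ∀ x ∈ VV W τ ε, x m = 0) :
    m.2.1 = 0 ∧ m.2.2.1 = 0 := by
  have h1 : m.2.2.1 = 0 := by
    ext t
    obtain ⟨s, hs⟩ := exists_ne_opt t
    have := h _ (mem_VV_gam hε s t)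
    rw [xmap_gam] at this
    have h3 := congrFun (congrArg Prod.fst this) s
    simpa [Pi.single_eq_of_ne hs] using h3
  have h3 : m.2.1 = 0 := by
    apply gen_lemma c0 nd
    intro v a
    have := h _ (mem_VV_v v)
    rw [xmap_v] at this
    have h4 := congrArg Prod.fst this
    simp only [Prod.fst_zero, smul_eq_zero, eps_ne hε, false_or] at h4
    rw [← fd_dot, h4, zero_dotProduct]
  exact ⟨h3, h1⟩

theorem ff_A (m : MM Φ J U W) (h1 : m.2.1 = 0) (h3 : m.2.2.1 = 0)
    {x : Module.End Φ (MM Φ J U W)} (hx : x ∈ VV W τ ε) : x m = 0 := by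
  obtain ⟨v, γ, hγ, hx⟩ := (mem_VV τ).1 hx
  rw [hx, h1, h3, mulVec_zero, fd_zero_right, ff_zero_right, smul_zero, add_zero]
  rfl

variable {bW : W →ₗ[Φ] W →ₗ[Φ] Φ}

theorem bM_A (m : MM Φ J U W) (a : Option J → Φ) : bM bW m (a, 0, 0, 0) = m.2.2.1 ⬝ᵥ a := by
  simp [bM, bB]

theorem bM_A' (m : MM Φ J U W) (a : Option J → Φ) : bM bW m (0, 0, a, 0) = m.1 ⬝ᵥ a := by
  simp [bM, bB]

theorem bM_A_left (m : MM Φ J U W) (a : Option J → Φ) : bM bW (a, 0, 0, 0) m = m.2.2.1 ⬝ᵥ a := by
  simp [bM, bB, dotProduct_comm]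

theorem bM_B_left (m : MM Φ J U W) (β : U × Module.Dual Φ U) :
    bM bW (0, β, 0, 0) m = bB β m.2.1 := by
  simp [bM]

theorem bM_B (m : MM Φ J U W) (β : U × Module.Dual Φ U) : bM bW m (0, β, 0, 0) = bB m.2.1 β := by
  simp [bM]

theorem bM_W_left (m : MM Φ J U W) (w : W) : bM bW (0, 0, 0, w) m = bW w m.2.2.2 := by
  simp [bM, bB]

theorem bM_W (m : MM Φ J U W) (w : W) : bM bW m (0, 0, 0, w) = bW m.2.2.2 w := by
  simp [bM, bB]

theorem bM_zero_left (m : MM Φ J U W) : bM bW 0 m = 0 := by simp [bM, bB]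

theorem bM_zero_right (m : MM Φ J U W) : bM bW m 0 = 0 := by simp [bM, bB]

include h2 hε alt nd in
/-- **Maximality.** -/
theorem max_VV [Nonempty J] (aW : ∀ w, bW w w = 0 → w = 0)
    (z : Module.End Φ (MM Φ J U W)) (hz2 : ∀ m, z (z m) = 0)
    (hadj : ∀ m m', bM bW (z m) m' = ε * bM bW m (z m'))
    (hanti : ∀ x ∈ VV W τ ε, ∀ m, x (z m) + z (x m) = 0) : z ∈ VV W τ ε := by
  have hε0 := eps_ne hε
  have hzz : ∀ m, bM bW (z m) (z m) = 0 := by
    intro m
    rw [hadj, hz2, bM_zero_right, mul_zero]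
  -- `z` maps `A ⊕ W` to `A`
  have B1 : ∀ m, m.2.1 = 0 → m.2.2.1 = 0 → (z m).2 = 0 := by
    intro m hm hm'
    have h1 : (z m).2.1 = 0 ∧ (z m).2.2.1 = 0 := by
      apply ker_VV hε c0 nd
      intro x hx
      have := hanti x hx m
      rwa [ff_A m hm hm' hx, map_zero, add_zero] at this
    have h3 : (z m).2.2.2 = 0 := by
      apply aW
      have := hzz m
      simp only [bM, h1.1, h1.2, dotProduct_zero, zero_dotProduct, bB_zero_left, zero_add] at this
      exact this
    exact Prod.ext h1.1 (Prod.ext h1.2 h3)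
  -- `z` preserves `A ⊕ B ⊕ W`
  have B2 : ∀ m, m.2.2.1 = 0 → (z m).2.2.1 = 0 := by
    intro m hm
    apply dotProduct_eq_zero
    intro a
    rw [← bM_A (bW := bW), hadj]
    have h1 : z (a, 0, 0, 0) = ((z (a, 0, 0, 0)).1, 0, 0, 0) := Prod.ext rfl (B1 _ rfl rfl)
    rw [h1, bM_A, hm, zero_dotProduct, mul_zero]
  have B2' : ∀ m, (z m).2.2.1 = (z (0, 0, m.2.2.1, 0)).2.2.1 := by
    intro m
    have h1 : m = (m.1, m.2.1, 0, m.2.2.2) + (0, 0, m.2.2.1, 0) := by ext <;> simp
    conv_lhs => rw [h1, map_add]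
    rw [Prod.snd_add, Prod.snd_add, Prod.fst_add, B2 _ rfl, zero_add]
  -- key relation
  have B3a : ∀ s t : Option J, s ≠ t → (z (0, 0, Pi.single t 1, 0)).2.2.1 s = 0 := by
    intro s t hst
    set y := (z (0, 0, Pi.single t 1, 0)).2.2.1 with hy
    have h1 := hanti _ (mem_VV_gam hε s t) (0, 0, Pi.single t 1, 0)
    have h3 := congrArg (fun m => bM bW m (0, 0, Pi.single t 1, 0)) h1
    simp only [bM_add_left] at h3
    rw [hadj, xmap_gam, xmap_gam, bM_A', bM_A_left, ← hy, bM_zero_left] at h3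
    simp only [Pi.single_eq_same, Pi.single_eq_of_ne hst, dotProduct_add, add_dotProduct,
      dotProduct_single, smul_dotProduct, dotProduct_smul, smul_eq_mul, mul_one, Pi.single_zero,
      Pi.zero_apply, mul_zero, add_zero, zero_add, Pi.single_eq_of_ne hst.symm, Pi.add_apply,
      Pi.smul_apply, dotProduct_zero, smul_zero] at h3
    have h5 : ε * (2 * y s) = 0 := by linear_combination h3
    simpa [hε0, h2] using h5
  have B3b : ∀ t : Option J, (z (0, 0, Pi.single t 1, 0)).2.2.1 = 0 := by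
    intro t
    set y := (z (0, 0, Pi.single t 1, 0)).2.2.1 with hy
    have h1 : y = y t • Pi.single t (1:Φ) := by
      ext s
      by_cases hst : s = t
      · subst hst; simp
      · have h0 := B3a s t hst
        rw [← hy] at h0
        rw [h0]; simp [Pi.single_eq_of_ne hst]
    have h3 : (z (z (0, 0, Pi.single t 1, 0))).2.2.1 = y t • y := by
      rw [B2', ← hy]
      conv_lhs => rw [h1]
      have h4 : ((0, 0, y t • Pi.single t (1:Φ), 0) : MM Φ J U W)
        = y t • (0, 0, Pi.single t (1:Φ), 0) := by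
        ext <;> simp
      rw [h4, map_smul, Prod.smul_snd, Prod.smul_snd, Prod.smul_fst, hy]
    rw [hz2] at h3
    have h4 : y t = 0 := by
      have := congrFun h3.symm t
      simpa using this
    rw [h1, h4, zero_smul]
  have B3 : ∀ m, (z m).2.2.1 = 0 := by
    intro m
    rw [B2']
    let L : (Option J → Φ) →ₗ[Φ] (Option J → Φ) :=
      (LinearMap.fst Φ _ _) ∘ₗ (LinearMap.snd Φ _ _) ∘ₗ (LinearMap.snd Φ _ _) ∘ₗ z ∘ₗ
        (LinearMap.inr Φ _ _) ∘ₗ (LinearMap.inr Φ _ _) ∘ₗ (LinearMap.inl Φ _ _)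
    have hL : L = 0 := by
      refine (Pi.basisFun Φ (Option J)).ext fun t => ?_
      rw [Pi.basisFun_apply]
      exact B3b t
    have : L m.2.2.1 = 0 := by rw [hL]; rfl
    exact this
  -- `z` kills `A`
  have B4 : ∀ a, z (a, 0, 0, 0) = 0 := by
    intro a
    refine Prod.ext ?_ (B1 _ rfl rfl)
    apply dotProduct_eq_zero
    intro c
    rw [← bM_A' (bW := bW), hadj, bM_A_left, B3, zero_dotProduct, mul_zero]
  -- the `B`-block vanishes
  have B5 : ∀ β, (z (0, β, 0, 0)).2.1 = 0 := by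
    intro β
    apply gen_lemma c0 nd
    intro v a
    rw [← bM_B_left (bW := bW)]
    have h1 := hanti _ (mem_VV_v v) (0, 0, a, 0)
    rw [xmap_v, xmap_v] at h1
    have h3 := congrArg (fun m => m.2.1) h1
    simp only [fd_zero_right, smul_zero, B3, ff_zero_right, Prod.snd_add, Prod.fst_add,
      zero_add] at h3
    have h5 := hadj (0, ff τ v a, 0, 0) (0, β, 0, 0)
    rw [bM_B, h3] at h5
    have h6 : bB (0 : MM Φ J U W).2.1 β = 0 := by simp [bB]
    rw [h6] at h5
    simpa [hε0] using h5.symm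
  have B5W : ∀ β, (z (0, β, 0, 0)).2.2.2 = 0 := by
    intro β
    apply aW
    rw [← bM_W (J := J) (U := U) (bW := bW), hadj, bM_B_left]
    have h1 : (z (0, 0, 0, (z (0, β, 0, 0)).2.2.2)).2 = 0 := B1 _ rfl rfl
    rw [h1, Prod.fst_zero, bB_zero_right, mul_zero]
  -- the `A*`-to-`B` block
  set h : (Option J → Φ) → U × Module.Dual Φ U := fun a => (z (0, 0, a, 0)).2.1 with hh
  have hrel : ∀ v a c, bB (ff τ v a) (h c) + bB (ff τ v c) (h a) = 0 := by
    intro v a c
    have h1 := hanti _ (mem_VV_v v) (0, 0, a, 0)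
    have h3 := congrArg (fun m => bM bW m (0, 0, c, 0)) h1
    simp only [bM_add_left] at h3
    rw [hadj, xmap_v, xmap_v, bM_A', bM_zero_left] at h3
    simp only [fd_zero_right, smul_zero, bM_B_left, smul_dotProduct, fd_dot, smul_eq_mul] at h3
    have h6 : ε * (bB (ff τ v a) (h c) + bB (ff τ v c) (h a)) = 0 := by
      linear_combination h3
    simpa [hε0] using h6
  set u := (h (e0 Φ J)).1 with hu
  have h2e : (h (e0 Φ J)).2 = 0 := by
    ext v
    have := hrel v (e0 Φ J) (e0 Φ J)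
    rw [ff_e0] at this
    simp only [bB, LinearMap.zero_apply, add_zero] at this
    have h7 : 2 * (h (e0 Φ J)).2 v = 0 := by linear_combination this
    simpa [h2] using h7
  have h2c : ∀ c, (h (ext0 Φ J c)).2 = τ c u := by
    intro c
    ext v
    have := hrel v (e0 Φ J) (ext0 Φ J c)
    rw [ff_e0, ff_ext0] at this
    simp only [bB, LinearMap.zero_apply, add_zero, map_zero, zero_add] at this
    rw [tau_skew alt]
    rw [← hu] at this
    linear_combination this
  have h1c0 : (h (ext0 Φ J c0)).1 = 0 := by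
    apply nd
    intro v
    have := hrel v (ext0 Φ J c0) (ext0 Φ J c0)
    rw [ff_ext0] at this
    simp only [bB, map_zero, zero_add] at this
    have h7 : 2 * τ c0 v (h (ext0 Φ J c0)).1 = 0 := by linear_combination this
    simpa [h2] using h7
  have h1c : ∀ c, (h (ext0 Φ J c)).1 = 0 := by
    intro c
    apply nd
    intro v
    have := hrel v (ext0 Φ J c0) (ext0 Φ J c)
    rw [ff_ext0, ff_ext0] at this
    simpa only [bB, map_zero, zero_add, h1c0, add_zero] using this
  have hlin : ∀ a, h a = ff τ u a := by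
    intro a
    have h8 : h a = a none • h (e0 Φ J) + h (ext0 Φ J (rs Φ J a)) := by
      have h9 : ((0, 0, a, 0) : MM Φ J U W)
          = a none • (0, 0, e0 Φ J, 0) + (0, 0, ext0 Φ J (rs Φ J a), 0) := by
        refine Prod.ext (by simp) (Prod.ext (by simp) (Prod.ext ?_ (by simp)))
        exact opt_decomp a
      simp only [hh]
      rw [h9, map_add, map_smul]
      rfl
    rw [h8]
    refine Prod.ext ?_ ?_
    · simp only [Prod.fst_add, Prod.smul_fst, h1c, add_zero, ff, hu]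
    · simp only [Prod.snd_add, Prod.smul_snd, h2e, smul_zero, zero_add, h2c, ff]
  have hW0 : ∀ a, (z (0, 0, a, 0)).2.2.2 = 0 := by
    intro a
    apply aW
    have h1 := hzz (0, 0, a, 0)
    have h3 : (z (0, 0, a, 0)).2.1 = ff τ u a := hlin a
    simp only [bM, B3, dotProduct_zero, zero_dotProduct, zero_add, h3, bB_ff_ff alt] at h1
    exact h1
  have hzW : ∀ w, z (0, 0, 0, w) = 0 := by
    intro w
    refine Prod.ext ?_ (B1 _ rfl rfl)
    apply dotProduct_eq_zero
    intro c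
    rw [← bM_A' (bW := bW), hadj, bM_W_left, hW0, map_zero, mul_zero]
  -- conclusion
  let g1 : (Option J → Φ) →ₗ[Φ] (Option J → Φ) :=
    (LinearMap.fst Φ _ _) ∘ₗ z ∘ₗ (LinearMap.inr Φ _ _) ∘ₗ (LinearMap.inr Φ _ _) ∘ₗ
      (LinearMap.inl Φ _ _)
  have hg1 : ∀ a, g1 a = (z (0, 0, a, 0)).1 := fun a => rfl
  rw [mem_VV]
  refine ⟨u, LinearMap.toMatrix' g1, ?_, ?_⟩
  · ext s t
    have h10 := hadj (0, 0, Pi.single s 1, 0) (0, 0, Pi.single t 1, 0)
    have h11 : ∀ m : MM Φ J U W, ∀ a, bM bW (0, 0, a, 0) m = m.1 ⬝ᵥ a := by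
      intro m a
      simp [bM, bB, dotProduct_comm]
    rw [bM_A', h11, ← hg1, ← hg1] at h10
    simp only [transpose_apply, Matrix.smul_apply, smul_eq_mul, LinearMap.toMatrix'_apply]
    simpa using h10
  · intro m
    have h11 : m = (m.1, 0, 0, 0) + (0, m.2.1, 0, 0) + (0, 0, m.2.2.1, 0) + (0, 0, 0, m.2.2.2) := by
      ext <;> simp
    conv_lhs => rw [h11]
    rw [map_add, map_add, map_add, B4, hzW, zero_add, add_zero]
    have h12 : z (0, m.2.1, 0, 0) = (ε • fd τ u m.2.1, 0, 0, 0) := by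
      refine Prod.ext ?_ (Prod.ext (B5 _) (Prod.ext (B3 _) (B5W _)))
      have h13 : ∀ c, ((z (0, m.2.1, 0, 0)).1 - ε • fd τ u m.2.1) ⬝ᵥ c = 0 := by
        intro c
        rw [sub_dotProduct, ← bM_A' (bW := bW), hadj, bM_B_left, smul_dotProduct, fd_dot]
        have h14 : (z (0, 0, c, 0)).2.1 = ff τ u c := hlin c
        rw [h14, bB_comm, smul_eq_mul, sub_self]
      have := dotProduct_eq_zero _ h13
      exact sub_eq_zero.1 this
    have h15 : z (0, 0, m.2.2.1, 0)
        = (LinearMap.toMatrix' g1 *ᵥ m.2.2.1, ff τ u m.2.2.1, 0, 0) := by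
      refine Prod.ext ?_ (Prod.ext (hlin _) (Prod.ext (B3 _) (hW0 _)))
      rw [LinearMap.toMatrix'_mulVec]
      rfl
    rw [h12, h15]
    exact Prod.ext (add_comm _ _) (Prod.ext (zero_add _) (Prod.ext (zero_add _) (zero_add _)))

end

end Pool.Agent.MP_7a2f31_al
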