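import Pool.Agent.MP_7a2f31_al.Space

open Matrix

set_option linter.unusedSectionVars false
set_option linter.unusedSimpArgs false

namespace Pool.Agent.MP_7a2f31_al

variable {Φ : Type*} [Field Φ]

/-- the standard alternating form on `E ⊕ E*` -/
def om {E : Type*} [AddCommGroup E] [Module Φ E] (x y : E × Module.Dual Φ E) : Φ :=
  y.2 x.1 - x.2 y.1

section om
variable {E : Type*} [AddCommGroup E] [Module Φ E]

theorem om_add_left (x x' y : E × Module.Dual Φ E) : om (x + x') y = om x y + om x' y := by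
  simp only [om, Prod.fst_add, Prod.snd_add, map_add, LinearMap.add_apply]; ring

theorem om_smul_left (c : Φ) (x y : E × Module.Dual Φ E) : om (c • x) y = c * om x y := by
  simp only [om, Prod.smul_fst, Prod.smul_snd, map_smul, LinearMap.smul_apply, smul_eq_mul]; ring

theorem om_add_right (x y y' : E × Module.Dual Φ E) : om x (y + y') = om x y + om x y' := by
  simp only [om, Prod.fst_add, Prod.snd_add, map_add, LinearMap.add_apply]; ring

theorem om_smul_right (c : Φ) (x y : E × Module.Dual Φ E) : om x (c • y) = c * om x y := by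
  simp only [om, Prod.smul_fst, Prod.smul_snd, map_smul, LinearMap.smul_apply, smul_eq_mul]; ring

theorem om_zero_left (y : E × Module.Dual Φ E) : om 0 y = 0 := by simp [om]

theorem om_zero_right (y : E × Module.Dual Φ E) : om y 0 = 0 := by simp [om]

theorem om_nd (x : E × Module.Dual Φ E) (h : ∀ y, om x y = 0) : x = 0 := by
  refine Prod.ext ?_ ?_
  · rw [Prod.fst_zero, ← Module.forall_dual_apply_eq_zero_iff Φ]
    intro φ
    have := h (0, φ)
    simpa [om] using this
  · ext d
    have := h (d, 0)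
    simpa [om] using this

theorem om_self (x : E × Module.Dual Φ E) : om x x = 0 := by simp [om]

theorem om_skew (x y : E × Module.Dual Φ E) : om x y = - om y x := by simp [om]

end om

/-- the symplectic pads -/
abbrev ZZ (Φ : Type*) [Field Φ] (l : ℕ) {p : ℕ} (j : Fin p) :=
  (Fin (l * 2 ^ (j : ℕ)) → Φ) × Module.Dual Φ (Fin (l * 2 ^ (j : ℕ)) → Φ)

/-- the space `U`: main part `E ⊕ E*` and `p` symplectic pads -/
abbrev UU (Φ E : Type*) [Field Φ] [AddCommGroup E] [Module Φ E] (l p : ℕ) :=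
  (E × Module.Dual Φ E) × ((j : Fin p) → ZZ Φ l j)

section
variable {E : Type*} [AddCommGroup E] [Module Φ E] {l p : ℕ}

/-- the tensor attached to a linear system `A` of endomorphisms of `E` -/
def tauf (A : (Fin p → Φ) →ₗ[Φ] (E →ₗ[Φ] E)) (c : Fin p → Φ) (v w : UU Φ E l p) : Φ :=
  (w.1.2 (A c v.1.1) - v.1.2 (A c w.1.1)) + ∑ j, c j * om (v.2 j) (w.2 j)

/-- `tauf` as a trilinear map -/
def tau (l : ℕ) {p : ℕ} (A : (Fin p → Φ) →ₗ[Φ] (E →ₗ[Φ] E)) :
    (Fin p → Φ) →ₗ[Φ] UU Φ E l p →ₗ[Φ] UU Φ E l p →ₗ[Φ] Φ where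
  toFun c := LinearMap.mk₂ Φ (fun v w => tauf A c v w)
    (by
      intro v v' w
      simp only [tauf, Prod.fst_add, Prod.snd_add, map_add, LinearMap.add_apply, Pi.add_apply,
        om_add_left, mul_add, Finset.sum_add_distrib]
      ring)
    (by
      intro a v w
      simp only [tauf, Prod.smul_fst, Prod.smul_snd, map_smul, LinearMap.smul_apply, Pi.smul_apply,
        om_smul_left, smul_eq_mul, mul_add, Finset.mul_sum, mul_sub]
      congr 1
      refine Finset.sum_congr rfl fun j _ => by ring)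
    (by
      intro v w w'
      simp only [tauf, Prod.fst_add, Prod.snd_add, map_add, LinearMap.add_apply, Pi.add_apply,
        om_add_right, mul_add, Finset.sum_add_distrib]
      ring)
    (by
      intro a v w
      simp only [tauf, Prod.smul_fst, Prod.smul_snd, map_smul, LinearMap.smul_apply, Pi.smul_apply,
        om_smul_right, smul_eq_mul, mul_add, Finset.mul_sum, mul_sub]
      congr 1
      refine Finset.sum_congr rfl fun j _ => by ring)
  map_add' c d := by
    refine LinearMap.ext₂ fun v w => ?_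
    simp only [LinearMap.mk₂_apply, LinearMap.add_apply, tauf, map_add, Pi.add_apply, add_mul,
      Finset.sum_add_distrib]
    ring
  map_smul' a c := by
    refine LinearMap.ext₂ fun v w => ?_
    simp only [LinearMap.mk₂_apply, LinearMap.smul_apply, tauf, map_smul, Pi.smul_apply,
      smul_eq_mul, mul_assoc, RingHom.id_apply, mul_add, mul_sub, Finset.mul_sum]

theorem tau_apply (A : (Fin p → Φ) →ₗ[Φ] (E →ₗ[Φ] E)) (c : Fin p → Φ) (v w : UU Φ E l p) :
    tau l A c v w = (w.1.2 (A c v.1.1) - v.1.2 (A c w.1.1)) + ∑ j, c j * om (v.2 j) (w.2 j) := rfl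

theorem tau_alt (A : (Fin p → Φ) →ₗ[Φ] (E →ₗ[Φ] E)) (c : Fin p → Φ) (v : UU Φ E l p) :
    tau l A c v v = 0 := by
  rw [tau_apply]
  simp [om_self]

/-- pairing with a pad vector -/
theorem tau_pad (A : (Fin p → Φ) →ₗ[Φ] (E →ₗ[Φ] E)) (c : Fin p → Φ) (v : UU Φ E l p) (j : Fin p)
    (z : ZZ Φ l j) :
    tau l A c v (0, Pi.single j z) = c j * om (v.2 j) z := by
  rw [tau_apply, Finset.sum_eq_single j]
  · simp
  · intro i _ hij
    change c i * om (v.2 i) ((Pi.single j z : (j : Fin p) → ZZ Φ l j) i) = 0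
    rw [Pi.single_eq_of_ne hij, om_zero_right, mul_zero]
  · simp

theorem tau_pad' (A : (Fin p → Φ) →ₗ[Φ] (E →ₗ[Φ] E)) (c : Fin p → Φ) (v : UU Φ E l p) (j : Fin p)
    (z : ZZ Φ l j) :
    tau l A c (0, Pi.single j z) v = c j * om z (v.2 j) := by
  rw [tau_apply, Finset.sum_eq_single j]
  · simp
  · intro i _ hij
    change c i * om ((Pi.single j z : (j : Fin p) → ZZ Φ l j) i) (v.2 i) = 0
    rw [Pi.single_eq_of_ne hij, om_zero_left, mul_zero]
  · simp

theorem tau_main (A : (Fin p → Φ) →ₗ[Φ] (E →ₗ[Φ] E)) (c : Fin p → Φ) (v : UU Φ E l p)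
    (y : E × Module.Dual Φ E) :
    tau l A c v (y, 0) = y.2 (A c v.1.1) - v.1.2 (A c y.1) := by
  rw [tau_apply]
  simp [om_zero_right]

/-- radical vectors vanish on the pads seen by `c` -/
theorem rad_pad {A : (Fin p → Φ) →ₗ[Φ] (E →ₗ[Φ] E)} {c : Fin p → Φ} {v : UU Φ E l p}
    (hv : tau l A c v = 0) (j : Fin p) (hj : c j ≠ 0) : v.2 j = 0 := by
  apply om_nd
  intro z
  have := tau_pad A c v j z
  rw [hv, LinearMap.zero_apply] at this
  simpa [hj] using this.symm

/-- radical vectors vanish on the main part if `A c` is invertible -/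
theorem rad_main {A : (Fin p → Φ) →ₗ[Φ] (E →ₗ[Φ] E)} {c : Fin p → Φ}
    (hA : Function.Bijective (A c)) {v : UU Φ E l p} (hv : tau l A c v = 0) : v.1 = 0 := by
  refine Prod.ext ?_ ?_
  · rw [Prod.fst_zero]
    apply hA.1
    rw [map_zero, ← Module.forall_dual_apply_eq_zero_iff Φ]
    intro φ
    have := tau_main A c v (0, φ)
    rw [hv, LinearMap.zero_apply] at this
    simpa using this.symm
  · ext d
    obtain ⟨d, rfl⟩ := hA.2 d
    have := tau_main A c v (d, 0)
    rw [hv, LinearMap.zero_apply] at this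
    simpa using this.symm

/-- nondegeneracy -/
theorem tau_nd {A : (Fin p → Φ) →ₗ[Φ] (E →ₗ[Φ] E)} {c : Fin p → Φ} (hc : ∀ j, c j ≠ 0)
    (hA : Function.Bijective (A c)) (x : UU Φ E l p) (hx : ∀ v, tau l A c v x = 0) : x = 0 := by
  have h1 : tau l A c x = 0 := by
    refine LinearMap.ext fun v => ?_
    rw [tau_skew (tau_alt A), hx, neg_zero, LinearMap.zero_apply]
  exact Prod.ext (rad_main hA h1) (funext fun j => rad_pad h1 j (hc j))

/-- injectivity of the tensor -/
theorem tau_inj {A : (Fin p → Φ) →ₗ[Φ] (E →ₗ[Φ] E)} (hl : 0 < l) (c : Fin p → Φ)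
    (hc : ∀ v w, tau l A c v w = 0) : c = 0 := by
  ext j
  have hpos : 0 < l * 2 ^ (j : ℕ) := by positivity
  let i0 : Fin (l * 2 ^ (j : ℕ)) := ⟨0, hpos⟩
  have := tau_pad A c (0, Pi.single j (Pi.single i0 1, 0)) j (0, LinearMap.proj i0)
  rw [hc] at this
  simpa [om] using this.symm

end

end Pool.Agent.MP_7a2f31_al
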