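import Mathlib

open Matrix

set_option linter.unusedSectionVars false

namespace Pool.Agent.MP_7a2f31_al

variable {Φ : Type*} [Field Φ] {J : Type*} [Fintype J] [DecidableEq J]
  {U : Type*} [AddCommGroup U] [Module Φ U] {W : Type*} [AddCommGroup W] [Module Φ W]

/-- the ambient space `A ⊕ (U ⊕ U*) ⊕ A* ⊕ W` -/
abbrev MM (Φ J U W : Type*) [Field Φ] [AddCommGroup U] [Module Φ U] :=
  (Option J → Φ) × (U × Module.Dual Φ U) × (Option J → Φ) × W

/-- the hyperbolic form on `U ⊕ U*` -/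
def bB (x y : U × Module.Dual Φ U) : Φ := y.2 x.1 + x.2 y.1

/-- the form on `MM`: hyperbolic plus the form `bW` on `W` -/
def bM (bW : W →ₗ[Φ] W →ₗ[Φ] Φ) (m m' : MM Φ J U W) : Φ :=
  m.1 ⬝ᵥ m'.2.2.1 + m.2.2.1 ⬝ᵥ m'.1 + bB m.2.1 m'.2.1 + bW m.2.2.2 m'.2.2.2

theorem bB_comm (x y : U × Module.Dual Φ U) : bB x y = bB y x := by
  simp only [bB]; ring

theorem bB_add_left (x x' y : U × Module.Dual Φ U) : bB (x + x') y = bB x y + bB x' y := by
  simp only [bB, Prod.fst_add, Prod.snd_add, map_add, LinearMap.add_apply]; ring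

theorem bB_smul_left (c : Φ) (x y : U × Module.Dual Φ U) : bB (c • x) y = c * bB x y := by
  simp only [bB, Prod.smul_fst, Prod.smul_snd, map_smul, LinearMap.smul_apply, smul_eq_mul]; ring

theorem bB_add_right (x y y' : U × Module.Dual Φ U) : bB x (y + y') = bB x y + bB x y' := by
  rw [bB_comm, bB_add_left, bB_comm y, bB_comm y']

theorem bB_smul_right (c : Φ) (x y : U × Module.Dual Φ U) : bB x (c • y) = c * bB x y := by
  rw [bB_comm, bB_smul_left, bB_comm y]

theorem bB_zero_left (y : U × Module.Dual Φ U) : bB 0 y = 0 := by simp [bB]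

theorem bB_zero_right (y : U × Module.Dual Φ U) : bB y 0 = 0 := by simp [bB]

section form
variable {bW : W →ₗ[Φ] W →ₗ[Φ] Φ}

theorem bM_comm (sW : ∀ x y, bW x y = bW y x) (m m' : MM Φ J U W) : bM bW m m' = bM bW m' m := by
  simp only [bM]
  rw [bB_comm, dotProduct_comm m.1, dotProduct_comm m.2.2.1, sW]; ring

theorem bM_add_left (m m₁ m' : MM Φ J U W) : bM bW (m + m₁) m' = bM bW m m' + bM bW m₁ m' := by
  simp only [bM, Prod.fst_add, Prod.snd_add, add_dotProduct, bB_add_left, map_add,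
    LinearMap.add_apply]
  ring

end form

variable (bW : W →ₗ[Φ] W →ₗ[Φ] Φ)

/-- a space of endomorphisms `x` with `x² = 0` and adjoint `ε x` -/
def IsAM (ε : Φ) (V : Submodule Φ (Module.End Φ (MM Φ J U W))) : Prop :=
  ∀ x ∈ V, (∀ m, x (x m) = 0) ∧ ∀ m m', bM bW (x m) m' = ε * bM bW m (x m')

/-- restriction of a function on `Option J` to `J` -/
def rs (Φ J : Type*) [Field Φ] : (Option J → Φ) →ₗ[Φ] (J → Φ) := LinearMap.funLeft Φ Φ some

theorem rs_apply (a : Option J → Φ) (j : J) : rs Φ J a j = a (some j) := rfl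

/-- the maps `f_v : A* → U ⊕ U*` -/
def ff (τ : (J → Φ) →ₗ[Φ] U →ₗ[Φ] U →ₗ[Φ] Φ) (v : U) (a : Option J → Φ) : U × Module.Dual Φ U :=
  (a none • v, τ (rs Φ J a) v)

/-- the adjoint maps `U ⊕ U* → A` -/
def fd (τ : (J → Φ) →ₗ[Φ] U →ₗ[Φ] U →ₗ[Φ] Φ) (v : U) (β : U × Module.Dual Φ U) : Option J → Φ
  | none => β.2 v
  | some j => τ (Pi.single j 1) v β.1

variable (τ : (J → Φ) →ₗ[Φ] U →ₗ[Φ] U →ₗ[Φ] Φ)

theorem tau_expand (c : J → Φ) (v w : U) : τ c v w = ∑ j, c j * τ (Pi.single j 1) v w := by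
  have h : c = ∑ j, c j • (Pi.single j (1:Φ) : J → Φ) := by
    ext i
    simp [Finset.sum_apply, Pi.single_apply]
  conv_lhs => rw [h]
  simp [map_sum, LinearMap.sum_apply]

theorem fd_dot (v : U) (β : U × Module.Dual Φ U) (a : Option J → Φ) :
    fd τ v β ⬝ᵥ a = bB (ff τ v a) β := by
  simp only [dotProduct, Fintype.sum_option, fd, bB, ff, map_smul, smul_eq_mul]
  rw [tau_expand]
  simp only [rs_apply]
  have : ∀ j, τ (Pi.single j 1) v β.1 * a (some j) = a (some j) * τ (Pi.single j 1) v β.1 :=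
    fun j => mul_comm _ _
  simp only [this]
  ring

theorem ff_add_left (v w : U) (a : Option J → Φ) : ff τ (v + w) a = ff τ v a + ff τ w a := by
  ext <;> simp [ff]

theorem ff_smul_left (c : Φ) (v : U) (a : Option J → Φ) : ff τ (c • v) a = c • ff τ v a := by
  ext <;> simp [ff, smul_comm c]

theorem ff_add_right (v : U) (a b : Option J → Φ) : ff τ v (a + b) = ff τ v a + ff τ v b := by
  ext
  · simp [ff, add_smul]
  · simp [ff]

theorem ff_smul_right (c : Φ) (v : U) (a : Option J → Φ) : ff τ v (c • a) = c • ff τ v a := by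
  ext
  · simp [ff, mul_smul]
  · simp [ff]

theorem fd_add_left (v w : U) (β : U × Module.Dual Φ U) :
    fd τ (v + w) β = fd τ v β + fd τ w β := by
  ext o; cases o <;> simp [fd]

theorem fd_smul_left (c : Φ) (v : U) (β : U × Module.Dual Φ U) :
    fd τ (c • v) β = c • fd τ v β := by
  ext o; cases o <;> simp [fd]

theorem fd_add_right (v : U) (β δ : U × Module.Dual Φ U) :
    fd τ v (β + δ) = fd τ v β + fd τ v δ := by
  ext o; cases o <;> simp [fd]

theorem fd_smul_right (c : Φ) (v : U) (β : U × Module.Dual Φ U) :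
    fd τ v (c • β) = c • fd τ v β := by
  ext o; cases o <;> simp [fd]

variable (W)

/-- the elements `x_{v,γ}` -/
def xmap (ε : Φ) : (U × Matrix (Option J) (Option J) Φ) →ₗ[Φ] Module.End Φ (MM Φ J U W) :=
  LinearMap.mk₂ Φ (fun p m => (p.2 *ᵥ m.2.2.1 + ε • fd τ p.1 m.2.1, ff τ p.1 m.2.2.1, 0, 0))
    (by
      intro p q m
      simp only [Prod.snd_add, Prod.fst_add, add_mulVec, fd_add_left, ff_add_left, smul_add,
        Prod.mk_add_mk, add_zero]
      congr 1; abel)
    (by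
      intro c p m
      simp only [Prod.smul_snd, Prod.smul_fst, smul_mulVec, fd_smul_left, ff_smul_left, smul_add,
        Prod.smul_mk, smul_zero, smul_comm ε c])
    (by
      intro p m n
      simp only [Prod.snd_add, Prod.fst_add, mulVec_add, fd_add_right, ff_add_right, smul_add,
        Prod.mk_add_mk, add_zero]
      congr 1; abel)
    (by
      intro c p m
      simp only [Prod.smul_snd, Prod.smul_fst, mulVec_smul, fd_smul_right, ff_smul_right, smul_add,
        Prod.smul_mk, smul_zero, smul_comm ε c])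

theorem xmap_apply (ε : Φ) (p : U × Matrix (Option J) (Option J) Φ) (m : MM Φ J U W) :
    xmap W τ ε p m = (p.2 *ᵥ m.2.2.1 + ε • fd τ p.1 m.2.1, ff τ p.1 m.2.2.1, 0, 0) := rfl

/-- the parameter space of pairs `(v,γ)` with `γᵀ = ε γ` -/
def symSub (Φ J U : Type*) [Field Φ] [AddCommGroup U] [Module Φ U] (ε : Φ) :
    Submodule Φ (U × Matrix (Option J) (Option J) Φ) where
  carrier := {p | p.2ᵀ = ε • p.2}
  add_mem' := by
    intro p q hp hq
    simp only [Set.mem_ofPred_eq, Prod.snd_add, transpose_add, smul_add] at *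
    rw [hp, hq]
  zero_mem' := by simp
  smul_mem' := by
    intro c p hp
    simp only [Set.mem_ofPred_eq, Prod.smul_snd, transpose_smul] at *
    rw [hp, smul_comm]

/-- the space `V_τ` -/
def VV (ε : Φ) : Submodule Φ (Module.End Φ (MM Φ J U W)) := (symSub Φ J U ε).map (xmap W τ ε)

variable {W}

theorem mem_VV {ε : Φ} {x : Module.End Φ (MM Φ J U W)} :
    x ∈ VV W τ ε ↔ ∃ (v : U) (γ : Matrix (Option J) (Option J) Φ), γᵀ = ε • γ ∧
      ∀ m, x m = (γ *ᵥ m.2.2.1 + ε • fd τ v m.2.1, ff τ v m.2.2.1, 0, 0) := by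
  constructor
  · rintro ⟨⟨v, γ⟩, hp, rfl⟩
    exact ⟨v, γ, hp, fun m => rfl⟩
  · rintro ⟨v, γ, hγ, hx⟩
    exact ⟨(v, γ), hγ, LinearMap.ext fun m => by rw [hx m]; rfl⟩

section
variable {τ} {bW}
variable {ε : Φ} (h2 : (2:Φ) ≠ 0) (hε : ε * ε = 1) (alt : ∀ c v, τ c v v = 0)
include alt

theorem tau_skew (c : J → Φ) (v w : U) : τ c v w = - τ c w v := by
  have h := alt c (v + w)
  simp only [map_add, LinearMap.add_apply, alt] at h
  linear_combination h

theorem bB_ff_ff (v : U) (a c : Option J → Φ) : bB (ff τ v a) (ff τ v c) = 0 := by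
  simp [bB, ff, alt]

include hε in
theorem isAM_VV : IsAM bW ε (VV W τ ε) := by
  intro x hx
  obtain ⟨v, γ, hγ, hx⟩ := (mem_VV τ).1 hx
  constructor
  · intro m
    rw [hx m, hx]
    have h1 : fd τ v (ff τ v m.2.2.1) = 0 := by
      have h2 : ∀ a, fd τ v (ff τ v m.2.2.1) ⬝ᵥ a = 0 := fun a => by
        rw [fd_dot, bB_ff_ff alt]
      exact dotProduct_eq_zero _ h2
    have h3 : ff τ v (0 : Option J → Φ) = 0 := by
      have := ff_smul_right τ (0:Φ) v 0
      simpa using this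
    simp only [mulVec_zero, h1, smul_zero, add_zero, h3]
    rfl
  · intro m m'
    rw [hx m, hx m']
    simp only [bM, add_dotProduct, dotProduct_add, smul_dotProduct, dotProduct_smul, smul_eq_mul,
      zero_dotProduct, dotProduct_zero, zero_add, add_zero, map_zero, LinearMap.zero_apply]
    rw [fd_dot, dotProduct_comm m.2.2.1 (fd τ v m'.2.1), fd_dot]
    have h4 : γ *ᵥ m.2.2.1 ⬝ᵥ m'.2.2.1 = ε * (m.2.2.1 ⬝ᵥ γ *ᵥ m'.2.2.1) := by
      rw [dotProduct_comm, dotProduct_mulVec, ← mulVec_transpose, hγ, smul_mulVec,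
        smul_dotProduct, dotProduct_comm, smul_eq_mul]
    rw [h4, bB_comm m.2.1]
    linear_combination (-(bB (ff τ v m.2.2.1) m'.2.1)) * hε

end

end Pool.Agent.MP_7a2f31_al
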