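import Pool.Agent.MP_7a2f31_al.Rigid

open Matrix Module

set_option linter.unusedSectionVars false
set_option linter.unusedSimpArgs false

namespace Pool.Agent.MP_7a2f31_al

variable {Φ : Type*} [Field Φ] {E : Type*} [AddCommGroup E] [Module Φ E] {l p : ℕ}

open Classical in
/-- binary code of the zero set -/
noncomputable def code (c : Fin p → Φ) : ℕ :=
  ∑ j ∈ Finset.univ.filter (fun j => c j = 0), 2 ^ (j : ℕ)

theorem code_inj {c c' : Fin p → Φ} (h : code c = code c') (j : Fin p) : c j = 0 ↔ c' j = 0 := by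
  classical
  have h0 : ∀ c : Fin p → Φ, code c
      = ∑ i ∈ (Finset.univ.filter (fun j => c j = 0)).map Fin.valEmbedding, 2 ^ i := by
    intro c
    rw [code, Finset.sum_map]
    rfl
  rw [h0, h0] at h
  have h1 := Finset.map_injective Fin.valEmbedding (Finset.geomSum_injective le_rfl h)
  have h2 := congrArg (fun s => j ∈ s) h1
  simp only [Finset.mem_filter, Finset.mem_univ, true_and, eq_iff_iff] at h2
  exact h2

theorem finrank_ZZ (j : Fin p) : finrank Φ (ZZ Φ l j) = 2 * l * 2 ^ (j : ℕ) := by
  rw [finrank_prod, Subspace.dual_finrank_eq, finrank_fintype_fun_eq_card, Fintype.card_fin]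
  ring

theorem finrank_pads (c : Fin p → Φ) :
    finrank Φ ((j : {j : Fin p // c j = 0}) → ZZ Φ l j.1) = 2 * l * code c := by
  classical
  rw [finrank_pi_fintype]
  simp only [finrank_ZZ]
  rw [← Finset.mul_sum, code]
  congr 1
  rw [← Finset.sum_subtype_eq_sum_filter]
  simp

theorem ker_lower [FiniteDimensional Φ E] (A : (Fin p → Φ) →ₗ[Φ] (E →ₗ[Φ] E)) (c : Fin p → Φ) :
    2 * l * code c ≤ finrank Φ (LinearMap.ker (tau l A c)) := by
  classical
  rw [← finrank_pads]
  let F : ((j : {j : Fin p // c j = 0}) → ZZ Φ l j.1) →ₗ[Φ] UU Φ E l p :=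
    { toFun := fun ζ => (0, fun j => if h : c j = 0 then ζ ⟨j, h⟩ else 0)
      map_add' := by
        intro x y
        refine Prod.ext (by simp) ?_
        funext j
        by_cases h : c j = 0 <;> simp [h]
      map_smul' := by
        intro a x
        refine Prod.ext (by simp) ?_
        funext j
        by_cases h : c j = 0 <;> simp [h] }
  have hF : ∀ ζ, F ζ ∈ LinearMap.ker (tau l A c) := by
    intro ζ
    rw [LinearMap.mem_ker]
    refine LinearMap.ext fun w => ?_
    rw [tau_apply]
    have : ∀ j, c j * om ((F ζ).2 j) (w.2 j) = 0 := by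
      intro j
      by_cases h : c j = 0
      · rw [h, zero_mul]
      · have : (F ζ).2 j = 0 := by simp [F, h]
        rw [this, om_zero_left, mul_zero]
    simp only [this, Finset.sum_const_zero]
    simp [F]
  refine LinearMap.finrank_le_finrank_of_injective
    (f := LinearMap.codRestrict (LinearMap.ker (tau l A c)) F hF) ?_
  rw [injective_iff_map_eq_zero]
  intro ζ hζ0
  have hζ : F ζ = 0 := congrArg Subtype.val hζ0
  funext j
  have := congrFun (congrArg Prod.snd hζ) j.1
  simpa [F, j.2] using this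

theorem ker_upper [FiniteDimensional Φ E] (A : (Fin p → Φ) →ₗ[Φ] (E →ₗ[Φ] E)) (c : Fin p → Φ) :
    finrank Φ (LinearMap.ker (tau l A c)) ≤ 2 * finrank Φ E + 2 * l * code c := by
  classical
  have h0 : finrank Φ ((E × Dual Φ E) × ((j : {j : Fin p // c j = 0}) → ZZ Φ l j.1))
      = 2 * finrank Φ E + 2 * l * code c := by
    rw [finrank_prod, finrank_pads, finrank_prod, Subspace.dual_finrank_eq]
    ring
  rw [← h0]
  let G0 : UU Φ E l p →ₗ[Φ] (E × Dual Φ E) × ((j : {j : Fin p // c j = 0}) → ZZ Φ l j.1) :=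
    { toFun := fun v => (v.1, fun j => v.2 j.1)
      map_add' := fun _ _ => rfl
      map_smul' := fun _ _ => rfl }
  refine LinearMap.finrank_le_finrank_of_injective
    (f := G0 ∘ₗ (LinearMap.ker (tau l A c)).subtype) ?_
  rw [injective_iff_map_eq_zero]
  intro v hv
  have h1 : v.1.1 = 0 := congrArg Prod.fst hv
  have h2 : ∀ j, v.1.2 j = 0 := by
    intro j
    by_cases h : c j = 0
    · exact congrFun (congrArg Prod.snd hv) ⟨j, h⟩
    · exact rad_pad (LinearMap.mem_ker.1 v.2) j h
  exact Subtype.ext (Prod.ext h1 (funext h2))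

section
variable [FiniteDimensional Φ E] {A A' : (Fin p → Φ) →ₗ[Φ] (E →ₗ[Φ] E)}
  (hl : finrank Φ E < l)
  (P : UU Φ E l p ≃ₗ[Φ] UU Φ E l p) (H : (Fin p → Φ) →ₗ[Φ] (Fin p → Φ))
  (hPH : ∀ c v w, tau l A' (H c) (P v) (P w) = tau l A c v w)

include hPH in
theorem ker_map (c : Fin p → Φ) :
    (LinearMap.ker (tau l A c)).map P.toLinearMap = LinearMap.ker (tau l A' (H c)) := by
  ext y
  constructor
  · rintro ⟨x, hx, rfl⟩
    rw [LinearMap.mem_ker]
    refine LinearMap.ext fun w => ?_
    obtain ⟨w, rfl⟩ := P.surjective w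
    have : tau l A c x = 0 := hx
    simp only [LinearEquiv.coe_coe]
    rw [hPH, this]
    rfl
  · intro hy
    obtain ⟨x, rfl⟩ := P.surjective y
    refine ⟨x, ?_, rfl⟩
    rw [SetLike.mem_coe, LinearMap.mem_ker]
    refine LinearMap.ext fun w => ?_
    rw [← hPH, LinearMap.mem_ker.1 hy]
    rfl

include hPH hl in
/-- the induced map on coefficient vectors preserves supports -/
theorem supp_eq (c : Fin p → Φ) (j : Fin p) : H c j = 0 ↔ c j = 0 := by
  have h1 : finrank Φ (LinearMap.ker (tau l A c)) = finrank Φ (LinearMap.ker (tau l A' (H c))) := by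
    rw [← ker_map P H hPH c]
    exact (LinearEquiv.finrank_map_eq P _).symm
  have h2 := ker_lower (l := l) A c
  have h3 := ker_upper (l := l) A c
  have h4 := ker_lower (l := l) A' (H c)
  have h5 := ker_upper (l := l) A' (H c)
  have h6 : code (H c) = code c := by
    by_contra hne
    rcases lt_or_gt_of_ne hne with h | h
    · have : 2 * l * (code (H c) + 1) ≤ 2 * l * code c := Nat.mul_le_mul_left _ h
      rw [mul_add] at this
      omega
    · have : 2 * l * (code c + 1) ≤ 2 * l * code (H c) := Nat.mul_le_mul_left _ h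
      rw [mul_add] at this
      omega
  exact code_inj h6 j

end

end Pool.Agent.MP_7a2f31_al
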