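import Pool.Agent.MP_7a2f31_al.Defs
import Pool.Agent.MP_7a2f31_al.Conj
import Pool.Agent.MP_7a2f31_al.Isometry

open Matrix Module

set_option linter.unusedSectionVars false
set_option linter.unusedSimpArgs false

namespace Pool.Agent.MP_7a2f31_al

variable {Φ : Type*} [Field Φ]

/-- square-zero matrices with transpose `ε x` -/
def AMat {n : ℕ} (ε : Φ) (V : Submodule Φ (Matrix (Fin n) (Fin n) Φ)) : Prop :=
  ∀ x ∈ V, x * x = 0 ∧ xᵀ = ε • x

section transfer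
variable {J : Type*} [Fintype J] [DecidableEq J] {U : Type*} [AddCommGroup U] [Module Φ U]
  {W : Type*} [AddCommGroup W] [Module Φ W] {bW : W →ₗ[Φ] W →ₗ[Φ] Φ}
  {ε : Φ} {n : ℕ} (θ : MM Φ J U W ≃ₗ[Φ] (Fin n → Φ))

/-- transfer of endomorphisms to matrices -/
noncomputable def Psi : Module.End Φ (MM Φ J U W) ≃ₗ[Φ] Matrix (Fin n) (Fin n) Φ :=
  θ.conj.trans LinearMap.toMatrix'

theorem Psi_mulVec (x : Module.End Φ (MM Φ J U W)) (m : MM Φ J U W) :
    Psi θ x *ᵥ θ m = θ (x m) := by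
  rw [Psi, LinearEquiv.trans_apply, LinearMap.toMatrix'_mulVec, LinearEquiv.conj_apply]
  simp

theorem mat_ext {A B : Matrix (Fin n) (Fin n) Φ} (h : ∀ m, A *ᵥ θ m = B *ᵥ θ m) : A = B := by
  apply Matrix.mulVec_injective
  funext v
  obtain ⟨m, rfl⟩ := θ.surjective v
  exact h m

theorem Psi_mul (x y : Module.End Φ (MM Φ J U W)) : Psi θ (x * y) = Psi θ x * Psi θ y := by
  apply mat_ext θ
  intro m
  rw [← mulVec_mulVec, Psi_mulVec, Psi_mulVec, Psi_mulVec]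
  rfl

variable {θ}
variable (hθ : ∀ m m', θ m ⬝ᵥ θ m' = bM bW m m')
include hθ

theorem Psi_transpose (x : Module.End Φ (MM Φ J U W)) :
    (Psi θ x)ᵀ = ε • Psi θ x ↔ ∀ m m', bM bW (x m) m' = ε * bM bW m (x m') := by
  have h1 : ∀ m m', bM bW (x m) m' = θ m ⬝ᵥ ((Psi θ x)ᵀ *ᵥ θ m') := by
    intro m m'
    rw [← hθ, ← Psi_mulVec θ x m, mulVec_transpose, dotProduct_comm, dotProduct_mulVec,
      dotProduct_comm]
  have h2 : ∀ m m', ε * bM bW m (x m') = θ m ⬝ᵥ ((ε • Psi θ x) *ᵥ θ m') := by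
    intro m m'
    rw [← hθ, ← Psi_mulVec θ x m', smul_mulVec, dotProduct_smul, smul_eq_mul]
  constructor
  · intro h m m'
    rw [h1, h2, h]
  · intro h
    apply mat_ext θ
    intro m'
    have h3 : ∀ w : Fin n → Φ, w ⬝ᵥ ((Psi θ x)ᵀ *ᵥ θ m') = w ⬝ᵥ ((ε • Psi θ x) *ᵥ θ m') := by
      intro w
      obtain ⟨m, rfl⟩ := θ.surjective w
      rw [← h1, ← h2, h]
    have h4 : ((Psi θ x)ᵀ *ᵥ θ m') - ((ε • Psi θ x) *ᵥ θ m') = 0 := by
      apply dotProduct_eq_zero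
      intro w
      rw [dotProduct_comm, dotProduct_sub, h3, sub_self]
    exact sub_eq_zero.1 h4

theorem Psi_sq (x : Module.End Φ (MM Φ J U W)) :
    Psi θ x * Psi θ x = 0 ↔ ∀ m, x (x m) = 0 := by
  rw [← Psi_mul, LinearEquiv.map_eq_zero_iff]
  constructor
  · intro h m
    exact LinearMap.congr_fun h m
  · intro h
    exact LinearMap.ext h

theorem AMat_map {V : Submodule Φ (Module.End Φ (MM Φ J U W))} (hV : IsAM bW ε V) :
    AMat ε (V.map (Psi θ).toLinearMap) := by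
  rintro _ ⟨x, hx, rfl⟩
  exact ⟨(Psi_sq hθ x).2 (hV x hx).1, (Psi_transpose hθ x).2 (hV x hx).2⟩

/-- transfer of maximality -/
theorem max_map (aW : ∀ w, bW w w = 0 → w = 0) {τ : (J → Φ) →ₗ[Φ] U →ₗ[Φ] U →ₗ[Φ] Φ} (h2 : (2:Φ) ≠ 0) (hε : ε * ε = 1)
    (alt : ∀ c v, τ c v v = 0) (c0 : J → Φ) (nd : ∀ x, (∀ v, τ c0 v x = 0) → x = 0) [Nonempty J]
    (S : Submodule Φ (Matrix (Fin n) (Fin n) Φ)) (hW : AMat ε S)
    (hVW : (VV W τ ε).map (Psi θ).toLinearMap ≤ S) : S ≤ (VV W τ ε).map (Psi θ).toLinearMap := by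
  intro z' hz'
  obtain ⟨z, rfl⟩ := (Psi θ).surjective z'
  refine ⟨z, ?_, rfl⟩
  obtain ⟨hz1, hz2⟩ := hW _ hz'
  apply max_VV h2 hε alt c0 nd aW z ((Psi_sq hθ z).1 hz1) ((Psi_transpose hθ z).1 hz2)
  intro x hx m
  have hx' : Psi θ x ∈ S := hVW ⟨x, hx, rfl⟩
  have h3 := (hW _ (S.add_mem hx' hz')).1
  have h4 := (hW _ hx').1
  have h5 : Psi θ (x * z + z * x) = 0 := by
    rw [map_add, Psi_mul, Psi_mul]
    rw [add_mul, mul_add, mul_add, h4, hz1] at h3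
    simpa using h3
  have h6 := (LinearEquiv.map_eq_zero_iff _).1 h5
  exact LinearMap.congr_fun h6 m

/-- transfer of equivalence -/
theorem orth_iff (V V' : Submodule Φ (Module.End Φ (MM Φ J U W))) :
    OrthEquiv (V.map (Psi θ).toLinearMap) (V'.map (Psi θ).toLinearMap) ↔
    ∃ g : MM Φ J U W ≃ₗ[Φ] MM Φ J U W, (∀ m m', bM bW (g m) (g m') = bM bW m m') ∧
      (∀ x ∈ V, ∃ y ∈ V', ∀ m, g (x m) = y (g m)) ∧
      (∀ y ∈ V', ∃ x ∈ V, ∀ m, g (x m) = y (g m)) := by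
  constructor
  · rintro ⟨q, hq, hVW⟩
    have hq' : qᵀ * q = 1 := mul_eq_one_comm.1 hq
    let qe : (Fin n → Φ) ≃ₗ[Φ] (Fin n → Φ) :=
      LinearEquiv.ofLinearMap q.mulVecLin qᵀ.mulVecLin
        (by rw [← Matrix.mulVecLin_mul, hq, Matrix.mulVecLin_one])
        (by rw [← Matrix.mulVecLin_mul, hq', Matrix.mulVecLin_one])
    let g : MM Φ J U W ≃ₗ[Φ] MM Φ J U W := θ.trans (qe.trans θ.symm)
    have hg : ∀ m, θ (g m) = q *ᵥ θ m := by
      intro m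
      simp [g, qe]
    refine ⟨g, ?_, ?_, ?_⟩
    · intro m m'
      rw [← hθ, ← hθ, hg, hg, dotProduct_mulVec, ← mulVec_transpose, mulVec_mulVec, hq', one_mulVec]
    · intro x hx
      have h1 : q * Psi θ x * qᵀ ∈ (V'.map (Psi θ).toLinearMap : Set _) := by
        rw [hVW]
        exact ⟨Psi θ x, ⟨x, hx, rfl⟩, rfl⟩
      obtain ⟨y, hy, hyx⟩ := h1
      have hyx' : Psi θ y = q * Psi θ x * qᵀ := hyx
      refine ⟨y, hy, fun m => θ.injective ?_⟩
      rw [hg, ← Psi_mulVec θ y, hyx', hg, ← Psi_mulVec θ x, mulVec_mulVec, mulVec_mulVec,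
        Matrix.mul_assoc, Matrix.mul_assoc, hq', Matrix.mul_one]
    · intro y hy
      have h1 : Psi θ y ∈ (V'.map (Psi θ).toLinearMap : Set _) := ⟨y, hy, rfl⟩
      rw [hVW] at h1
      obtain ⟨x', ⟨x, hx, rfl⟩, hxy⟩ := h1
      have hyx' : Psi θ y = q * Psi θ x * qᵀ := hxy.symm
      refine ⟨x, hx, fun m => θ.injective ?_⟩
      rw [hg, ← Psi_mulVec θ y, hyx', hg, ← Psi_mulVec θ x, mulVec_mulVec, mulVec_mulVec,
        Matrix.mul_assoc, Matrix.mul_assoc, hq', Matrix.mul_one]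
  · rintro ⟨g, hg, hf, hb⟩
    set q : Matrix (Fin n) (Fin n) Φ := Psi θ g.toLinearMap with hqdef
    have hqm : ∀ m, q *ᵥ θ m = θ (g m) := fun m => Psi_mulVec θ _ m
    have hq' : qᵀ * q = 1 := by
      apply mat_ext θ
      intro m'
      have h4 : (qᵀ * q) *ᵥ θ m' - (1 : Matrix (Fin n) (Fin n) Φ) *ᵥ θ m' = 0 := by
        apply dotProduct_eq_zero
        intro w
        obtain ⟨m, rfl⟩ := θ.surjective w
        rw [dotProduct_comm, dotProduct_sub, ← mulVec_mulVec, dotProduct_mulVec, vecMul_transpose,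
          hqm, hqm, one_mulVec, hθ, hθ, hg, sub_self]
      exact sub_eq_zero.1 h4
    have hq : q * qᵀ = 1 := mul_eq_one_comm.1 hq'
    have hconj : ∀ (x y : Module.End Φ (MM Φ J U W)), (∀ m, g (x m) = y (g m)) →
        Psi θ y = q * Psi θ x * qᵀ := by
      intro x y hxy
      have h1 : Psi θ y * q = q * Psi θ x := by
        rw [hqdef, ← Psi_mul, ← Psi_mul]
        congr 1
        exact LinearMap.ext fun m => (hxy m).symm
      rw [← h1, Matrix.mul_assoc, hq, Matrix.mul_one]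
    refine ⟨q, hq, ?_⟩
    ext y'
    constructor
    · rintro ⟨y, hy, rfl⟩
      obtain ⟨x, hx, hxy⟩ := hb y hy
      exact ⟨Psi θ x, ⟨x, hx, rfl⟩, (hconj x y hxy).symm⟩
    · rintro ⟨x', ⟨x, hx, rfl⟩, rfl⟩
      obtain ⟨y, hy, hxy⟩ := hf x hx
      exact ⟨y, hy, hconj x y hxy⟩

end transfer

end Pool.Agent.MP_7a2f31_al
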