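import Pool.Agent.MP_7a2f31_al.Family

open Matrix Module

set_option linter.unusedSectionVars false
set_option linter.unusedSimpArgs false

namespace Pool.Agent.MP_7a2f31_al

variable {Φ : Type*} [Field Φ]

/-- pairs of matrices as pairs of endomorphisms -/
def toEnd {k : ℕ} (p : Matrix (Fin k) (Fin k) Φ × Matrix (Fin k) (Fin k) Φ) :
    ((Fin k → Φ) →ₗ[Φ] (Fin k → Φ)) × ((Fin k → Φ) →ₗ[Φ] (Fin k → Φ)) :=
  (p.1.mulVecLin, p.2.mulVecLin)

theorem toEnd_aff {k : ℕ} (p p' p'' : Matrix (Fin k) (Fin k) Φ × Matrix (Fin k) (Fin k) Φ)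
    (a b c : Φ) : toEnd (a • p + b • p' + c • p'') = a • toEnd p + b • toEnd p' + c • toEnd p'' := by
  refine Prod.ext ?_ ?_ <;> refine LinearMap.ext fun v => ?_ <;>
    simp [toEnd, add_mulVec, smul_mulVec]

theorem sim_iff {k : ℕ} (p p' : Matrix (Fin k) (Fin k) Φ × Matrix (Fin k) (Fin k) Φ) :
    SimSimilar p p' ↔ ∃ h : (Fin k → Φ) ≃ₗ[Φ] (Fin k → Φ),
      (∀ t, h ((toEnd p).1 t) = (toEnd p').1 (h t)) ∧
      ∀ t, h ((toEnd p).2 t) = (toEnd p').2 (h t) := by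
  constructor
  · rintro ⟨g, h1, h2⟩
    let h : (Fin k → Φ) ≃ₗ[Φ] (Fin k → Φ) :=
      LinearEquiv.ofLinearMap (g : Matrix (Fin k) (Fin k) Φ).mulVecLin
        ((g⁻¹ : (Matrix (Fin k) (Fin k) Φ)ˣ) : Matrix (Fin k) (Fin k) Φ).mulVecLin
        (by rw [← Matrix.mulVecLin_mul, Units.mul_inv, Matrix.mulVecLin_one])
        (by rw [← Matrix.mulVecLin_mul, Units.inv_mul, Matrix.mulVecLin_one])
    have hh : ∀ t, h t = (g : Matrix (Fin k) (Fin k) Φ) *ᵥ t := fun t => rfl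
    refine ⟨h, fun t => ?_, fun t => ?_⟩
    · rw [hh, hh]
      simp only [toEnd, Matrix.mulVecLin_apply, mulVec_mulVec]
      rw [h1, Matrix.mul_assoc, Units.inv_mul, Matrix.mul_one]
    · rw [hh, hh]
      simp only [toEnd, Matrix.mulVecLin_apply, mulVec_mulVec]
      rw [h2, Matrix.mul_assoc, Units.inv_mul, Matrix.mul_one]
  · rintro ⟨h, h1, h2⟩
    have e1 : LinearMap.toMatrix' h.toLinearMap * LinearMap.toMatrix' h.symm.toLinearMap = 1 := by
      rw [← LinearMap.toMatrix'_comp]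
      simp
    have e2 : LinearMap.toMatrix' h.symm.toLinearMap * LinearMap.toMatrix' h.toLinearMap = 1 := by
      rw [← LinearMap.toMatrix'_comp]
      simp
    let g : (Matrix (Fin k) (Fin k) Φ)ˣ := ⟨_, _, e1, e2⟩
    have hg : ∀ t, (g : Matrix (Fin k) (Fin k) Φ) *ᵥ t = h t := by
      intro t
      exact LinearMap.toMatrix'_mulVec _ _
    refine ⟨g, ?_, ?_⟩
    · have : (g : Matrix (Fin k) (Fin k) Φ) * p.1 = p'.1 * g := by
        apply Matrix.mulVec_injective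
        funext t
        change (_ * _) *ᵥ t = (_ * _) *ᵥ t
        rw [← mulVec_mulVec, ← mulVec_mulVec, hg, hg]
        exact h1 t
      rw [this, Matrix.mul_assoc, Units.mul_inv, Matrix.mul_one]
    · have : (g : Matrix (Fin k) (Fin k) Φ) * p.2 = p'.2 * g := by
        apply Matrix.mulVec_injective
        funext t
        change (_ * _) *ᵥ t = (_ * _) *ᵥ t
        rw [← mulVec_mulVec, ← mulVec_mulVec, hg, hg]
        exact h2 t
      rw [this, Matrix.mul_assoc, Units.mul_inv, Matrix.mul_one]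

theorem params (k h : ℕ) (hh : 7 + 6 * k + 2 * 63 * (3 * k + 63) ≤ h) :
    ∃ s l m : ℕ, (s = 0 ∨ s = 1) ∧ 3 * k + m < l ∧
      (s + 6) + (2 * (3 * k + m) + ∑ j : Fin (s + 5), 2 * l * 2 ^ (j : ℕ)) = h := by
  rcases Nat.even_or_odd h with he | ho
  · obtain ⟨r, hr⟩ := he
    refine ⟨0, (r - 3 - 3 * k) / 31, (r - 3 - 3 * k) % 31, Or.inl rfl, ?_, ?_⟩
    · omega
    · change (0 + 6) + (2 * (3 * k + (r - 3 - 3 * k) % 31) +
        ∑ j : Fin 5, 2 * ((r - 3 - 3 * k) / 31) * 2 ^ (j : ℕ)) = h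
      rw [Fin.sum_univ_five]
      have h0 : ((0 : Fin 5) : ℕ) = 0 := rfl
      have h1 : ((1 : Fin 5) : ℕ) = 1 := rfl
      have h2 : ((2 : Fin 5) : ℕ) = 2 := rfl
      have h3 : ((3 : Fin 5) : ℕ) = 3 := rfl
      have h4 : ((4 : Fin 5) : ℕ) = 4 := rfl
      rw [h0, h1, h2, h3, h4]
      omega
  · obtain ⟨r, hr⟩ := ho
    refine ⟨1, (r - 3 - 3 * k) / 63, (r - 3 - 3 * k) % 63, Or.inr rfl, ?_, ?_⟩
    · omega
    · change (1 + 6) + (2 * (3 * k + (r - 3 - 3 * k) % 63) +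
        ∑ j : Fin 6, 2 * ((r - 3 - 3 * k) / 63) * 2 ^ (j : ℕ)) = h
      rw [Fin.sum_univ_six]
      have h0 : ((0 : Fin 6) : ℕ) = 0 := rfl
      have h1 : ((1 : Fin 6) : ℕ) = 1 := rfl
      have h2 : ((2 : Fin 6) : ℕ) = 2 := rfl
      have h3 : ((3 : Fin 6) : ℕ) = 3 := rfl
      have h4 : ((4 : Fin 6) : ℕ) = 4 := rfl
      have h5 : ((5 : Fin 6) : ℕ) = 5 := rfl
      rw [h0, h1, h2, h3, h4, h5]
      omega

theorem finrank_UU {E : Type*} [AddCommGroup E] [Module Φ E] [FiniteDimensional Φ E] (l p : ℕ) :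
    finrank Φ (UU Φ E l p) = 2 * finrank Φ E + ∑ j : Fin p, 2 * l * 2 ^ (j : ℕ) := by
  rw [finrank_prod, finrank_prod, Subspace.dual_finrank_eq, finrank_pi_fintype]
  simp only [finrank_ZZ]
  ring

/-- a map respecting affine combinations is an affine map -/
theorem exists_affine {V₁ V₂ : Type*} [AddCommGroup V₁] [Module Φ V₁] [AddCommGroup V₂]
    [Module Φ V₂] (F : V₁ → V₂) (hF : ∀ (p p' p'' : V₁) (a b c : Φ), a + b + c = 1 →
      F (a • p + b • p' + c • p'') = a • F p + b • F p' + c • F p'') :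
    ∃ A : V₁ →ᵃ[Φ] V₂, ∀ p, A p = F p := by
  have h1 : ∀ p q, F (p + q) = F p + F q - F 0 := by
    intro p q
    have := hF p q 0 1 1 (-1) (by ring)
    simp only [one_smul, smul_zero, add_zero] at this
    rw [this]
    module
  have h3 : ∀ (c : Φ) p, F (c • p) = c • F p + (1 - c) • F 0 := by
    intro c p
    have := hF p 0 0 c (1 - c) 0 (by ring)
    simp only [smul_zero, add_zero] at this
    rw [this]
    module
  refine ⟨{ toFun := F
            linear := { toFun := fun p => F p - F 0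
                        map_add' := ?_
                        map_smul' := ?_ }
            map_vadd' := ?_ }, fun p => rfl⟩
  · intro p q
    rw [h1]
    abel
  · intro c p
    rw [h3, RingHom.id_apply]
    module
  · intro p v
    simp only [vadd_eq_add, LinearMap.coe_mk, AddHom.coe_mk]
    rw [h1]
    abel

theorem Psi_aff {J : Type*} [Fintype J] [DecidableEq J] {U : Type*} [AddCommGroup U] [Module Φ U]
    {W : Type*} [AddCommGroup W] [Module Φ W] {n : ℕ} (θ : MM Φ J U W ≃ₗ[Φ] (Fin n → Φ))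
    (x y z : Module.End Φ (MM Φ J U W)) (a b c : Φ) :
    Psi θ (a • x + b • y + c • z) = a • Psi θ x + b • Psi θ y + c • Psi θ z := by
  rw [map_add, map_add, map_smul, map_smul, map_smul]

section aux
variable {W : Type*} [AddCommGroup W] [Module Φ W] {bW : W →ₗ[Φ] W →ₗ[Φ] Φ} {k m l s n : ℕ}
  {ε : Φ}

/-- the generating matrices -/
noncomputable def genF
    (θ : MM Φ (Fin (s + 5)) (UU Φ (EE (Fin k → Φ) (Fin m → Φ)) l (s + 5)) W ≃ₗ[Φ] (Fin n → Φ))
    (ε : Φ) (i : Fin (finrank Φ (UU Φ (EE (Fin k → Φ) (Fin m → Φ)) l (s + 5))) ⊕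
      (Option (Fin (s + 5)) × Option (Fin (s + 5))))
    (p : Matrix (Fin k) (Fin k) Φ × Matrix (Fin k) (Fin k) Φ) : Matrix (Fin n) (Fin n) Φ :=
  Psi θ (xmap W (tauXY (Fin m → Φ) l s (toEnd p)) ε
    (genq (finBasis Φ (UU Φ (EE (Fin k → Φ) (Fin m → Φ)) l (s + 5))) ε i))

theorem genF_aff
    (θ : MM Φ (Fin (s + 5)) (UU Φ (EE (Fin k → Φ) (Fin m → Φ)) l (s + 5)) W ≃ₗ[Φ] (Fin n → Φ))
    (i : Fin (finrank Φ (UU Φ (EE (Fin k → Φ) (Fin m → Φ)) l (s + 5))) ⊕
      (Option (Fin (s + 5)) × Option (Fin (s + 5))))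
    (p p' p'' : Matrix (Fin k) (Fin k) Φ × Matrix (Fin k) (Fin k) Φ) (a b c : Φ)
    (habc : a + b + c = 1) :
    genF θ ε i (a • p + b • p' + c • p'')
      = a • genF θ ε i p + b • genF θ ε i p' + c • genF θ ε i p'' := by
  rw [genF, toEnd_aff, tauXY_aff _ _ _ a b c habc, xmap_aff _ _ _ a b c habc]
  exact Psi_aff θ _ _ _ a b c

theorem genF_span (h2 : (2:Φ) ≠ 0) (hε : ε * ε = 1)
    (θ : MM Φ (Fin (s + 5)) (UU Φ (EE (Fin k → Φ) (Fin m → Φ)) l (s + 5)) W ≃ₗ[Φ] (Fin n → Φ))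
    (p : Matrix (Fin k) (Fin k) Φ × Matrix (Fin k) (Fin k) Φ) :
    Submodule.span Φ (Set.range fun i => genF θ ε i p)
      = (VV W (tauXY (Fin m → Φ) l s (toEnd p)) ε).map (Psi θ).toLinearMap :=
  (VV_map_eq_span θ h2 hε _ _).symm

theorem family_aux (h2 : (2:Φ) ≠ 0) (hε : ε * ε = 1) (haW : ∀ w, bW w w = 0 → w = 0)
    (hs' : (s:Φ) + 1 ≠ 0) (hlt : 3 * k + m < l)
    (θ : MM Φ (Fin (s + 5)) (UU Φ (EE (Fin k → Φ) (Fin m → Φ)) l (s + 5)) W ≃ₗ[Φ] (Fin n → Φ))
    (hθ : ∀ m m', θ m ⬝ᵥ θ m' = bM bW m m') :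
    ∃ (d : ℕ) (B : Fin d →
      (Matrix (Fin k) (Fin k) Φ × Matrix (Fin k) (Fin k) Φ) →ᵃ[Φ] Matrix (Fin n) (Fin n) Φ),
      (∀ p, AMat ε (Submodule.span Φ (Set.range fun i => B i p)) ∧
        ∀ S : Submodule Φ (Matrix (Fin n) (Fin n) Φ), AMat ε S →
          Submodule.span Φ (Set.range fun i => B i p) ≤ S →
          S ≤ Submodule.span Φ (Set.range fun i => B i p)) ∧
      ∀ p p', OrthEquiv (Submodule.span Φ (Set.range fun i => B i p))
        (Submodule.span Φ (Set.range fun i => B i p')) ↔ SimSimilar p p' := by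
  have hE : finrank Φ (EE (Fin k → Φ) (Fin m → Φ)) = 3 * k + m := by
    rw [finrank_prod, finrank_prod, finrank_prod, finrank_fintype_fun_eq_card,
      finrank_fintype_fun_eq_card, Fintype.card_fin, Fintype.card_fin]
    ring
  choose FA hFA using fun i => exists_affine (genF θ ε i) (genF_aff θ i)
  let ι := Fin (finrank Φ (UU Φ (EE (Fin k → Φ) (Fin m → Φ)) l (s + 5))) ⊕
      (Option (Fin (s + 5)) × Option (Fin (s + 5)))
  let e : Fin (Fintype.card ι) ≃ ι := (Fintype.equivFin ι).symm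
  have hspan : ∀ p, Submodule.span Φ (Set.range fun i => FA (e i) p)
      = (VV W (tauXY (Fin m → Φ) l s (toEnd p)) ε).map (Psi θ).toLinearMap := by
    intro p
    rw [← genF_span h2 hε θ]
    congr 1
    ext x
    constructor
    · rintro ⟨i, rfl⟩
      exact ⟨e i, (hFA _ _).symm⟩
    · rintro ⟨i, rfl⟩
      exact ⟨e.symm i, by simp only [Equiv.apply_symm_apply, hFA]⟩
  refine ⟨Fintype.card ι, fun i => FA (e i), ?_, ?_⟩
  · intro p
    rw [hspan]
    exact ⟨AMat_map hθ (isAM_VV hε (tauXY_alt _)), fun S hS hle =>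
      max_map hθ haW h2 hε (tauXY_alt _) (cc Φ s) (tauXY_nd hs' _) S hS hle⟩
  · intro p p'
    rw [hspan, hspan, orth_iff hθ, sim_iff]
    exact VV_equiv_iff hε haW hs' (by rw [hE]; exact hlt) _ _

end aux

/-- The family: for all large `n` the spaces `V(X, Y)`, spanned by matrices depending affinely on
`(X, Y)`, are maximal and their equivalence is simultaneous similarity. -/
theorem family (h2 : (2:Φ) ≠ 0) (hsq : IsSumSq (-1 : Φ)) {ε : Φ} (hε : ε * ε = 1) (k : ℕ) :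
    ∃ n0 : ℕ, ∀ n ≥ n0, ∃ (d : ℕ) (B : Fin d →
      (Matrix (Fin k) (Fin k) Φ × Matrix (Fin k) (Fin k) Φ) →ᵃ[Φ] Matrix (Fin n) (Fin n) Φ),
      (∀ p, AMat ε (Submodule.span Φ (Set.range fun i => B i p)) ∧
        ∀ S : Submodule Φ (Matrix (Fin n) (Fin n) Φ), AMat ε S →
          Submodule.span Φ (Set.range fun i => B i p) ≤ S →
          S ≤ Submodule.span Φ (Set.range fun i => B i p)) ∧
      ∀ p p', OrthEquiv (Submodule.span Φ (Set.range fun i => B i p))
        (Submodule.span Φ (Set.range fun i => B i p')) ↔ SimSimilar p p' := by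
  obtain ⟨n0, hn0⟩ := decomp h2 hsq (7 + 6 * k + 2 * 63 * (3 * k + 63))
  refine ⟨n0, fun n hn => ?_⟩
  obtain ⟨h, hh, W, i1, i2, bW, ψ, haW, hψ⟩ := hn0 n hn
  obtain ⟨s, l, m, hs, hlt, hsum⟩ := params k h hh
  have hs' : (s:Φ) + 1 ≠ 0 := by
    rcases hs with rfl | rfl
    · simp
    · have : ((1:ℕ):Φ) + 1 = 2 := by norm_num
      rw [this]; exact h2
  have hE : finrank Φ (EE (Fin k → Φ) (Fin m → Φ)) = 3 * k + m := by
    rw [finrank_prod, finrank_prod, finrank_prod, finrank_fintype_fun_eq_card,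
      finrank_fintype_fun_eq_card, Fintype.card_fin, Fintype.card_fin]
    ring
  have hcard : Fintype.card (Option (Fin (s + 5))) +
      finrank Φ (UU Φ (EE (Fin k → Φ) (Fin m → Φ)) l (s + 5)) = h := by
    rw [finrank_UU, hE, Fintype.card_option, Fintype.card_fin]
    exact hsum
  obtain ⟨θ, hθ⟩ := exists_theta (bW := bW) hcard ψ hψ
  exact family_aux h2 hε haW hs' hlt θ hθ

end Pool.Agent.MP_7a2f31_al
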